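import Mathlib
import Pool.Agent.H256R2.SC.G1

set_option autoImplicit false
set_option maxHeartbeats 4000000

namespace Pool.Agent.H378R2.RM

open Finset Pool.Agent.H256R2.SC Pool.Agent.H256R2.SC.LG

open scoped Classical

/-- the arithmetic core, in a progression: `L` consecutive composite terms -/
theorem ap_arith {c X y : ℝ} {L d a : ℕ} (hcov : CovAt c X) (hX1 : 1 ≤ X) (hy0 : 0 ≤ y)
    (hyX : y ≤ (Real.log X) ^ 2) (hd : 0 < d)
    (hB : (((d.primeFactors.filter (fun p : ℕ => (Real.log X) ^ 2 < (p : ℝ))).card : ℕ) : ℝ) ≤ 2 * Real.log X)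
    {b : ℕ → ℕ}
    (hU : (((Finset.Icc 1 L).filter (fun k => ∀ p : ℕ, p.Prime → p ∉ d.primeFactors → (p : ℝ) ≤ y →
        ¬ k ≡ b p [MOD p])).card : ℝ) ≤ c * Real.log X)
    (hL : (L : ℝ) ≤ (Real.log X) ^ 2)
    (hP : 4 * (primorial ⌊y⌋₊ : ℝ) ≤ X ^ (1 / 2 : ℝ)) (hX10 : 2 ≤ X ^ (1 / 10 : ℝ))
    (hX4 : X ^ (1 / 10 : ℝ) ≤ X / 4) (hy4 : y ≤ X / 4) :
    ∃ x : ℕ, X / 4 < x ∧ (x : ℝ) ≤ X / 2 + primorial ⌊y⌋₊ ∧
      ∀ k : ℕ, 1 ≤ k → k ≤ L → ¬ (a + d * (x + k)).Prime := by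
  classical
  set P : ℕ := primorial ⌊y⌋₊ with hPdef
  have hPpos : 0 < P := primorial_pos _
  have hPr : (0 : ℝ) < P := by exact_mod_cast hPpos
  -- inverses of d
  have hdinv : ∀ p : ℕ, ∃ i : ℤ, p.Prime → ¬ p ∣ d → (p : ℤ) ∣ d * i - 1 := by
    intro p
    by_cases h : p.Prime ∧ ¬ p ∣ d
    · obtain ⟨i, hi⟩ := inv_exists h.1 h.2
      exact ⟨i, fun _ _ => hi⟩
    · exact ⟨0, fun h1 h2 => absurd ⟨h1, h2⟩ h⟩
  choose dj hdj using hdinv
  obtain ⟨b0, hb0, hb0'⟩ := exists_crt ⌊y⌋₊ (fun p => ((-(b p : ℤ) - a * dj p) % (p : ℤ)).toNat)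
  have hfloor : ∀ p : ℕ, p ≤ ⌊y⌋₊ ↔ (p : ℝ) ≤ y := fun p => Nat.le_floor_iff hy0
  have hdvdP : ∀ p : ℕ, p.Prime → (p : ℝ) ≤ y → p ∣ P := fun p hp hpy =>
    (hp.dvd_primorial_iff).2 ((hfloor p).2 hpy)
  have hndvdP : ∀ p : ℕ, p.Prime → (Real.log X) ^ 2 < p → ¬ p ∣ P := by
    intro p hp hpX h
    have := (hfloor p).1 ((hp.dvd_primorial_iff).1 h)
    linarith
  have hb0b : ∀ p : ℕ, p.Prime → ¬ p ∣ d → (p : ℝ) ≤ y → (p : ℤ) ∣ (a : ℤ) + d * (b0 + b p) := by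
    intro p hp hpd hpy
    have h1 := hb0' p hp ((hfloor p).2 hpy)
    have hp0 : (p : ℤ) ≠ 0 := by exact_mod_cast hp.ne_zero
    have h2 : ((((-(b p : ℤ) - a * dj p) % (p : ℤ)).toNat : ℕ) : ℤ) = (-(b p : ℤ) - a * dj p) % (p : ℤ) :=
      Int.toNat_of_nonneg (Int.emod_nonneg _ hp0)
    have h3 : (b0 : ℤ) ≡ (-(b p : ℤ) - a * dj p) [ZMOD (p : ℤ)] := by
      have h4 := (Int.natCast_modEq_iff.2 h1)
      rw [h2] at h4
      exact h4.trans (Int.mod_modEq _ _)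
    have h5 : (p : ℤ) ∣ (b0 : ℤ) - (-(b p : ℤ) - a * dj p) := (Int.modEq_iff_dvd.1 h3.symm)
    have h6 := hdj p hp hpd
    have h7 : (a : ℤ) + d * (b0 + b p) = d * ((b0 : ℤ) - (-(b p : ℤ) - a * dj p)) - a * (d * dj p - 1) := by
      ring
    rw [h7]
    exact dvd_sub (h5.mul_left _) (h6.mul_left _)
  -- inverses
  have hinv : ∀ p : ℕ, ∃ i : ℤ, p.Prime → ¬ p ∣ P → (p : ℤ) ∣ P * i - 1 := by
    intro p
    by_cases h : p.Prime ∧ ¬ p ∣ P
    · obtain ⟨i, hi⟩ := inv_exists h.1 h.2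
      exact ⟨i, fun _ _ => hi⟩
    · exact ⟨0, fun h1 h2 => absurd ⟨h1, h2⟩ h⟩
  choose ip hip using hinv
  set U : Finset ℕ := (Finset.Icc 1 L).filter (fun k => ∀ p : ℕ, p.Prime → p ∉ d.primeFactors → (p : ℝ) ≤ y →
        ¬ k ≡ b p [MOD p]) with hUdef
  set A : Finset ℤ := Ioc ⌊X / (4 * P)⌋ ⌊X / (2 * P)⌋ with hA
  have hlt : X / (4 * P) ≤ X / (2 * P) := by
    apply div_le_div_of_nonneg_left (by linarith) (by positivity)
    linarith
  have hN : X ^ (1 / 2 : ℝ) ≤ X / (4 * P) := by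
    rw [le_div_iff₀ (by positivity)]
    calc X ^ (1 / 2 : ℝ) * (4 * P) ≤ X ^ (1 / 2 : ℝ) * X ^ (1 / 2 : ℝ) := by gcongr
      _ = X := by
        rw [← Real.rpow_add (by linarith)]
        norm_num
  set B : Finset ℕ := d.primeFactors.filter (fun p : ℕ => (Real.log X) ^ 2 < (p : ℝ)) with hBdef
  have hnotB : ∀ p : ℕ, p.Prime → (Real.log X) ^ 2 < p → p ∉ B → ¬ p ∣ d := by
    intro p hp hpX hpB hpd
    apply hpB
    rw [hBdef, mem_filter]
    exact ⟨Nat.mem_primeFactors.2 ⟨hp, hpd, hd.ne'⟩, hpX⟩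
  obtain ⟨m, hmA, hm⟩ := hcov B hB U (by simpa using hU)
    (fun p k => -((b0 : ℤ) + ((k : ℕ) : ℤ) + a * dj p) * ip p) (by
      intro p hp hp1 _ _ k l hkl hdvd
      have h1 := hip p hp (hndvdP p hp hp1)
      have h2 : (p : ℤ) ∣ ((l : ℕ) : ℤ) - ((k : ℕ) : ℤ) := by
        have h3 : (p : ℤ) ∣ (P : ℤ) * (-((b0 : ℤ) + ((k : ℕ) : ℤ) + a * dj p) * ip p -
            -((b0 : ℤ) + ((l : ℕ) : ℤ) + a * dj p) * ip p) := hdvd.mul_left _
        have h4 : (p : ℤ) ∣ (((l : ℕ) : ℤ) - ((k : ℕ) : ℤ)) * ((P : ℤ) * ip p - 1) := h1.mul_left _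
        have h5 := dvd_sub h3 h4
        have h6 : (P : ℤ) * (-((b0 : ℤ) + ((k : ℕ) : ℤ) + a * dj p) * ip p -
            -((b0 : ℤ) + ((l : ℕ) : ℤ) + a * dj p) * ip p) -
            (((l : ℕ) : ℤ) - ((k : ℕ) : ℤ)) * ((P : ℤ) * ip p - 1) =
            ((l : ℕ) : ℤ) - ((k : ℕ) : ℤ) := by ring
        rwa [h6] at h5
      have hk := mem_Icc.1 (mem_filter.1 k.2).1
      have hl := mem_Icc.1 (mem_filter.1 l.2).1
      have hpL : L < p := by
        have : (L : ℝ) < p := lt_of_le_of_lt hL hp1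
        exact_mod_cast this
      have h7 : ((l : ℕ) : ℤ) - ((k : ℕ) : ℤ) = 0 := by
        apply Int.eq_zero_of_abs_lt_dvd h2
        rw [abs_lt]
        constructor <;> omega
      apply hkl
      apply Subtype.ext
      omega)
    A (X / (4 * P)) 2 hN (by norm_num) hX10 (by
      intro q hq hq4 _ r
      have hq0 : 0 < q := Nat.pos_of_ne_zero hq.ne_zero
      have hq1 : (1 : ℝ) ≤ q := by exact_mod_cast hq0
      have h1 := count_Ioc ⌊X / (4 * P)⌋ ⌊X / (2 * P)⌋ (Int.floor_le_floor hlt) q hq0 r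
      have e1 := Int.floor_le (X / (4 * P))
      have e2 := Int.lt_floor_add_one (X / (4 * P))
      have e3 := Int.floor_le (X / (2 * P))
      have e4 := Int.lt_floor_add_one (X / (2 * P))
      have e5 : X / (2 * P) - X / (4 * P) = X / (4 * P) := by
        field_simp
        ring
      have h2 : |((⌊X / (2 * P)⌋ : ℝ) - ⌊X / (4 * P)⌋) / q - X / (4 * P) / q| ≤ 1 := by
        rw [← sub_div, abs_div, abs_of_pos (by linarith : (0 : ℝ) < q), div_le_one (by linarith)]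
        refine le_trans ?_ hq1
        rw [abs_le]
        constructor <;> linarith
      calc _ = |((((Ioc ⌊X / (4 * P)⌋ ⌊X / (2 * P)⌋).filter
              (fun x => (q : ℤ) ∣ x - r)).card : ℕ) : ℝ) -
              ((⌊X / (2 * P)⌋ : ℝ) - ⌊X / (4 * P)⌋) / q +
              (((⌊X / (2 * P)⌋ : ℝ) - ⌊X / (4 * P)⌋) / q - X / (4 * P) / q)| := by
            congr 1
            ring
        _ ≤ _ := abs_add_le _ _
        _ ≤ 2 := by linarith)
  rw [hA, mem_Ioc] at hmA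
  have hm1 : X / (4 * P) < m := by
    have := Int.lt_floor_add_one (X / (4 * P))
    have h2 : (⌊X / (4 * P)⌋ : ℝ) + 1 ≤ m := by exact_mod_cast hmA.1
    linarith
  have hm2 : (m : ℝ) ≤ X / (2 * P) := by
    have := Int.floor_le (X / (2 * P))
    have h2 : (m : ℝ) ≤ (⌊X / (2 * P)⌋ : ℝ) := by exact_mod_cast hmA.2
    linarith
  have hm0 : 0 < m := by
    have : (0 : ℝ) < m := lt_of_le_of_lt (by positivity) hm1
    exact_mod_cast this
  obtain ⟨m', rfl⟩ := Int.eq_ofNat_of_zero_le hm0.le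
  have hPm1 : X / 4 < P * m' := by
    have h1 : X / (4 * P) < ((m' : ℕ) : ℝ) := by exact_mod_cast hm1
    rw [div_lt_iff₀ (by positivity)] at h1
    linarith
  have hPm2 : (P * m' : ℝ) ≤ X / 2 := by
    have h1 : ((m' : ℕ) : ℝ) ≤ X / (2 * P) := by exact_mod_cast hm2
    rw [le_div_iff₀ (by positivity)] at h1
    linarith
  have hxr : ((b0 + P * m' : ℕ) : ℝ) = b0 + P * m' := by push_cast; ring
  have hb0r : (0 : ℝ) ≤ b0 := by positivity
  have hb0P : (b0 : ℝ) ≤ P := by exact_mod_cast hb0.le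
  refine ⟨b0 + P * m', by rw [hxr]; linarith, by rw [hxr]; linarith, ?_⟩
  intro k hk1 hkL hprime
  have hcomp : ∀ p : ℕ, p.Prime → (p : ℝ) ≤ X / 4 → ¬ p ∣ a + d * (b0 + P * m' + k) := by
    intro p hp hpX h
    have h1 := (Nat.prime_dvd_prime_iff_eq hp hprime).1 h
    have h2 : b0 + P * m' + k ≤ p := by
      rw [h1]
      calc b0 + P * m' + k ≤ d * (b0 + P * m' + k) := Nat.le_mul_of_pos_left _ hd
        _ ≤ _ := Nat.le_add_left _ _
    have h3 : ((b0 + P * m' + k : ℕ) : ℝ) ≤ p := by exact_mod_cast h2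
    push_cast at h3
    have h4 : (0 : ℝ) ≤ k := by positivity
    linarith
  by_cases hkU : k ∈ U
  · obtain ⟨p, hp, hp1, hp2, hpB, hp3⟩ := hm ⟨k, hkU⟩
    apply hcomp p hp (hp2.trans hX4)
    have h1 := hip p hp (hndvdP p hp hp1)
    have h8 := hdj p hp (hnotB p hp hp1 hpB)
    have h2 : (p : ℤ) ∣ ((a + d * (b0 + P * m' + k) : ℕ) : ℤ) := by
      have h3 := hp3.mul_left ((d : ℤ) * (P : ℤ))
      have h4 := h1.mul_left ((d : ℤ) * ((b0 : ℤ) + (k : ℤ) + a * dj p))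
      have h5 := dvd_sub h3 h4
      have h9 := h8.mul_left (a : ℤ)
      have h10 := dvd_sub h5 h9
      have h6 : (d : ℤ) * (P : ℤ) * ((m' : ℤ) - -((b0 : ℤ) + (k : ℤ) + a * dj p) * ip p) -
          (d : ℤ) * ((b0 : ℤ) + (k : ℤ) + a * dj p) * ((P : ℤ) * ip p - 1) -
          (a : ℤ) * (d * dj p - 1) = ((a + d * (b0 + P * m' + k) : ℕ) : ℤ) := by
        push_cast
        ring
      rwa [← h6]
    exact_mod_cast h2
  · have hkU' : ¬ ∀ p : ℕ, p.Prime → p ∉ d.primeFactors → (p : ℝ) ≤ y → ¬ k ≡ b p [MOD p] := fun h =>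
      hkU (mem_filter.2 ⟨mem_Icc.2 ⟨hk1, hkL⟩, h⟩)
    push Not at hkU'
    obtain ⟨p, hp, hpd, hpy, hkp⟩ := hkU'
    have hpd' : ¬ p ∣ d := fun h => hpd (Nat.mem_primeFactors.2 ⟨hp, h, hd.ne'⟩)
    apply hcomp p hp (hpy.trans hy4)
    have h1 := hb0b p hp hpd' hpy
    have h3 : (p : ℤ) ∣ (P : ℤ) * m' := by
      exact_mod_cast (hdvdP p hp hpy).mul_right m'
    have h4 : (p : ℤ) ∣ (k : ℤ) - b p := by
      have := (Nat.modEq_iff_dvd).1 hkp.symm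
      exact this
    have h5 : (p : ℤ) ∣ ((a + d * (b0 + P * m' + k) : ℕ) : ℤ) := by
      have e : ((a + d * (b0 + P * m' + k) : ℕ) : ℤ) =
          ((a : ℤ) + d * (b0 + b p)) + d * (P * m') + d * ((k : ℤ) - b p) := by
        push_cast; ring
      rw [e]
      exact dvd_add (dvd_add h1 (h3.mul_left _)) (h4.mul_left _)
    exact_mod_cast h5

end Pool.Agent.H378R2.RM
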