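import Mathlib
import Pool.Agent.H398R2.RK.Surv2

set_option autoImplicit false

namespace Pool.Agent.H378R2.RM

open Finset Pool.Agent.H318R2.Cr Pool.Agent.H398R2.RK

open scoped Classical

/-- sum of the reciprocals of the integers with all prime factors in `D` -/
theorem factored_sum (D : Finset ℕ) (hD : ∀ p ∈ D, p.Prime) (T : Finset ℕ)
    (hT : ∀ n ∈ T, 1 ≤ n ∧ ∀ p : ℕ, p.Prime → p ∣ n → p ∈ D) :
    ∑ n ∈ T, 1 / (n : ℝ) ≤ ∏ p ∈ D, (1 - 1 / (p : ℝ))⁻¹ := by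
  have h := EulerProduct.summable_and_hasSum_factoredNumbers_prod_filter_prime_geometric
    (f := pw 1 one_ne_zero) (by
      intro p hp
      have h1 : (pw 1 one_ne_zero) p = (p : ℝ) ^ (-(1 : ℝ)) := rfl
      rw [h1, Real.norm_of_nonneg (by positivity)]
      exact pow_lt_one' one_pos hp) D
  have h2 := h.2
  have e1 : (∏ p ∈ D with p.Prime, (1 - (pw 1 one_ne_zero) p)⁻¹) =
      ∏ p ∈ D, (1 - 1 / (p : ℝ))⁻¹ := by
    rw [filter_true_of_mem hD]
    apply prod_congr rfl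
    intro p _
    have h1 : (pw 1 one_ne_zero) p = (p : ℝ) ^ (-(1 : ℝ)) := rfl
    rw [h1, Real.rpow_neg_one, one_div]
  rw [e1] at h2
  have hmem : ∀ n ∈ T, n ∈ Nat.factoredNumbers D := by
    intro n hn
    rw [Nat.mem_factoredNumbers]
    refine ⟨by have := (hT n hn).1; omega, fun p hp => ?_⟩
    exact (hT n hn).2 p (Nat.prime_of_mem_primeFactorsList hp)
      (Nat.dvd_of_mem_primeFactorsList hp)
  have h3 := sum_le_hasSum (T.attach.image (fun n => (⟨n.1, hmem n.1 n.2⟩ : Nat.factoredNumbers D)))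
    (fun i _ => by
      have : (0 : ℝ) ≤ (i.1 : ℝ) ^ (-(1 : ℝ)) := by positivity
      exact this) h2
  rw [sum_image (by
    intro a _ b _ hab
    have := congrArg Subtype.val hab
    exact Subtype.ext this)] at h3
  refine le_trans (le_of_eq ?_) h3
  rw [← sum_attach]
  apply sum_congr rfl
  intro n _
  have h1 : (pw 1 one_ne_zero) n.1 = (n.1 : ℝ) ^ (-(1 : ℝ)) := rfl
  rw [h1, Real.rpow_neg_one, one_div]

theorem inv_le_one_of (D : Finset ℕ) (hD : ∀ p ∈ D, p.Prime) :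
    0 < ∏ p ∈ D, (1 - 1 / (p : ℝ)) ∧ ∏ p ∈ D, (1 - 1 / (p : ℝ)) ≤ 1 := by
  refine ⟨prod_pos fun p hp => one_sub_inv_pos (hD p hp), ?_⟩
  apply prod_le_one
  · intro p hp; exact (one_sub_inv_pos (hD p hp)).le
  · intro p _
    have : (0 : ℝ) ≤ 1 / (p : ℝ) := by positivity
    linarith

/-- bigger sets have smaller products -/
theorem prod_anti {D E : Finset ℕ} (hD : ∀ p ∈ D, p.Prime) (h : E ⊆ D) :
    ∏ p ∈ D, (1 - 1 / (p : ℝ)) ≤ ∏ p ∈ E, (1 - 1 / (p : ℝ)) := by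
  rw [← prod_sdiff h]
  have h1 := (inv_le_one_of (D \ E) (fun p hp => hD p (mem_sdiff.1 hp).1)).2
  have h2 := (inv_le_one_of E (fun p hp => hD p (h hp))).1
  nlinarith

end Pool.Agent.H378R2.RM
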