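import Mathlib
import Pool.Agent.H378R2.RM.Smo
import Pool.Agent.H256R2.SC.G3

set_option autoImplicit false
set_option maxHeartbeats 4000000

namespace Pool.Agent.H378R2.RM

open Finset Filter Pool.Agent.H318R2.Cr

open scoped Classical

/-- elementary estimates for large `l` -/
theorem ev_rm (K y₀ : ℝ) : ∃ l₀ : ℝ, ∀ l : ℝ, l₀ ≤ l → 400 ≤ l ∧ y₀ ≤ l / 10 ∧
    (Real.log l) ^ 2 ≤ l ∧ 1 ≤ Real.log l ∧ 100 ≤ Real.log (Real.log l) ∧
    1 ≤ Real.log (Real.log (Real.log l)) ∧
    3 / 4 * Real.log l ≤ Real.log (l / 10) ∧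
    3 / 4 * Real.log (Real.log (Real.log l)) ≤ Real.log (Real.log (Real.log (l / 10))) ∧
    K * (Real.log (Real.log l)) ^ 2 ≤ Real.log l ∧
    Real.log (Real.log (Real.log l)) / (Real.log (Real.log l)) ^ 2 ≤ 1 / 100 := by
  have hlog := Real.tendsto_log_atTop
  have hll : Tendsto (fun l : ℝ => Real.log (Real.log l)) atTop atTop := hlog.comp hlog
  have hlll : Tendsto (fun l : ℝ => Real.log (Real.log (Real.log l))) atTop atTop := hlog.comp hll
  have hK : ∀ᶠ l : ℝ in atTop, K * (Real.log (Real.log l)) ^ 2 ≤ Real.log l := by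
    have h1 := Real.tendsto_exp_div_pow_atTop 2
    have h2 := (h1.eventually_ge_atTop K).and (eventually_ge_atTop (1 : ℝ))
    have h3 := (hll.eventually h2).and (hlog.eventually_ge_atTop 1)
    filter_upwards [h3] with l hl
    obtain ⟨⟨ha, hb⟩, hc⟩ := hl
    rw [Real.exp_log (by linarith)] at ha
    rw [le_div_iff₀ (by positivity)] at ha
    exact ha
  have hall := ((((eventually_ge_atTop (400 : ℝ)).and (eventually_ge_atTop (10 * y₀))).and
    ((hlog.eventually_ge_atTop 100).and (hll.eventually_ge_atTop 100))).and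
    (hlll.eventually_ge_atTop 4)).and hK
  obtain ⟨l₀, h⟩ := eventually_atTop.1 hall
  refine ⟨l₀, fun l hl => ?_⟩
  obtain ⟨⟨⟨⟨h1, h2⟩, h3, h4⟩, h5⟩, h6⟩ := h l hl
  have hl0 : 0 < l := by linarith
  set u := Real.log l with hu
  set s := Real.log u with hs
  set w := Real.log s with hw
  have hu0 : 0 < u := by linarith
  have hs0 : 0 < s := by linarith
  have hsq : u ^ 2 ≤ l := by
    have hle : l = Real.exp u := by rw [hu, Real.exp_log hl0]
    rw [hle]
    have h7 := Real.pow_div_factorial_le_exp u (by linarith) 3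
    norm_num [Nat.factorial] at h7
    nlinarith [sq_nonneg u]
  have h10 : Real.log 10 ≤ 3 := by
    rw [Real.log_le_iff_le_exp (by norm_num)]
    have h8 := Real.exp_one_gt_d9
    have h9 : Real.exp 3 = Real.exp 1 ^ 3 := by rw [← Real.exp_nat_mul]; norm_num
    rw [h9]
    nlinarith [Real.exp_pos 1, sq_nonneg (Real.exp 1)]
  have h34 : -(1 : ℝ) ≤ Real.log (3 / 4) := by
    rw [Real.le_log_iff_exp_le (by norm_num)]
    have h8 := Real.exp_one_gt_d9
    rw [Real.exp_neg]
    calc (Real.exp 1)⁻¹ ≤ (2 : ℝ)⁻¹ := inv_anti₀ (by norm_num) (by linarith)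
      _ ≤ 3 / 4 := by norm_num
  have ha : 3 / 4 * u ≤ Real.log (l / 10) := by
    rw [Real.log_div hl0.ne' (by norm_num), ← hu]
    linarith
  have hb : 3 / 4 * s ≤ Real.log (Real.log (l / 10)) := by
    have h7 : Real.log (3 / 4 * u) ≤ Real.log (Real.log (l / 10)) :=
      Real.log_le_log (by positivity) ha
    rw [Real.log_mul (by norm_num) hu0.ne', ← hs] at h7
    linarith
  have hc : 3 / 4 * w ≤ Real.log (Real.log (Real.log (l / 10))) := by
    have h7 : Real.log (3 / 4 * s) ≤ Real.log (Real.log (Real.log (l / 10))) :=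
      Real.log_le_log (by positivity) hb
    rw [Real.log_mul (by norm_num) hs0.ne', ← hw] at h7
    linarith
  have hws : w ≤ s := by
    have := Real.log_le_sub_one_of_pos hs0
    linarith
  refine ⟨h1, by linarith, hsq, by linarith, h4, by linarith, ha, hc, h6, ?_⟩
  rw [div_le_div_iff₀ (by positivity) (by norm_num)]
  nlinarith

/-- lower bound for `φ(d)/d` -/
theorem tot_low : ∃ c : ℝ, 0 < c ∧ ∃ D₀ : ℝ, ∀ d : ℕ, D₀ ≤ Real.log d →
    c / Real.log (Real.log d) ≤ ∏ p ∈ d.primeFactors, (1 - 1 / (p : ℝ)) := by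
  obtain ⟨c₁, c₂, hc₁, hc₁₂, hV⟩ := cz_bounds
  refine ⟨c₁ * Real.exp (-12), by positivity, 400, fun d hd => ?_⟩
  have hd0 : d ≠ 0 := by
    rintro rfl
    simp at hd
    linarith
  set l := Real.log d with hl
  set N := ⌊l⌋₊ with hN
  have hNle : (N : ℝ) ≤ l := Nat.floor_le (by linarith)
  have hNlt : l < N + 1 := Nat.lt_floor_add_one l
  have hN2 : 2 ≤ N := by
    have : (2 : ℝ) ≤ N := by linarith
    exact_mod_cast this
  have hN0 : (399 : ℝ) ≤ N := by linarith
  set pf := d.primeFactors with hpf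
  have hpp : ∀ p ∈ pf, p.Prime := fun p hp => Nat.prime_of_mem_primeFactors hp
  rw [← prod_filter_mul_prod_filter_not pf (fun p => p ≤ N)]
  have h1 : V N ≤ ∏ p ∈ pf.filter (fun p => p ≤ N), (1 - 1 / (p : ℝ)) := by
    unfold V
    apply prod_anti
    · intro p hp; exact (mem_Pz.1 hp).1
    · intro p hp
      rw [mem_filter] at hp
      exact mem_Pz.2 ⟨hpp p hp.1, hp.2⟩
  have h2 : c₁ / Real.log l ≤ V N := by
    have h3 := (hV N hN2).1
    have hlN : 0 < Real.log N := Real.log_pos (by linarith)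
    have h4 : Real.log N ≤ Real.log l := Real.log_le_log (by linarith) hNle
    rw [div_le_iff₀ (by linarith)]
    calc c₁ ≤ V N * Real.log N := h3
      _ ≤ V N * Real.log l := mul_le_mul_of_nonneg_left h4 (V_pos N).le
  have h3 : Real.exp (-12) ≤ ∏ p ∈ pf.filter (fun p => ¬ p ≤ N), (1 - 1 / (p : ℝ)) := by
    have h4 : ∏ p ∈ pf.filter (fun p => ¬ p ≤ N), Real.exp (-(3 / (N : ℝ))) ≤
        ∏ p ∈ pf.filter (fun p => ¬ p ≤ N), (1 - 1 / (p : ℝ)) := by
      apply Finset.prod_le_prod (fun _ _ => (Real.exp_pos _).le)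
      intro p hp
      rw [mem_filter, not_le] at hp
      have hpN : (N : ℝ) ≤ p := by exact_mod_cast hp.2.le
      have hp0 : (0 : ℝ) < p := by linarith
      have h5 := exp_le_one_sub (x := 1 / (p : ℝ)) (by positivity)
          (one_div_le_one_div_of_le (by norm_num) (by linarith))
      refine le_trans (Real.exp_le_exp.2 ?_) h5
      have h6 : 1 / (p : ℝ) ≤ 1 / N := one_div_le_one_div_of_le (by linarith) hpN
      have h7 : (1 / (p : ℝ)) ^ 2 ≤ 1 / p := by
        have h8 : 1 / (p : ℝ) ≤ 1 := by rw [div_le_one hp0]; linarith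
        have h9 : 0 ≤ 1 / (p : ℝ) := by positivity
        nlinarith
      have h8 : 3 / (N : ℝ) = 3 * (1 / N) := by ring
      linarith
    refine le_trans ?_ h4
    rw [prod_const, ← Real.exp_nat_mul]
    apply Real.exp_le_exp.2
    have h5 : ((pf.filter (fun p => ¬ p ≤ N)).card : ℝ) ≤ 2 * l := by
      refine le_trans ?_ (Pool.Agent.H256R2.SC.G3.card_primeFactors_le d hd0)
      exact_mod_cast card_le_card (filter_subset _ _)
    have h6 : ((pf.filter (fun p => ¬ p ≤ N)).card : ℝ) * (3 / (N : ℝ)) ≤ 12 := by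
      calc ((pf.filter (fun p => ¬ p ≤ N)).card : ℝ) * (3 / (N : ℝ)) ≤ (2 * l) * (3 / N) := by
            apply mul_le_mul_of_nonneg_right h5 (by positivity)
        _ ≤ (4 * N) * (3 / N) := by
            apply mul_le_mul_of_nonneg_right (by linarith) (by positivity)
        _ = 12 := by field_simp; norm_num
    linarith
  calc c₁ * Real.exp (-12) / Real.log l = (c₁ / Real.log l) * Real.exp (-12) := by ring
    _ ≤ _ := by
      apply mul_le_mul (h2.trans h1) h3 (Real.exp_pos _).le
      exact (V_pos N).le.trans h1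

end Pool.Agent.H378R2.RM
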