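import Mathlib
import Pool.Agent.H378R2.RM.Smo

set_option autoImplicit false
set_option maxHeartbeats 4000000

namespace Pool.Agent.H378R2.RM

open Finset Filter Pool.Agent.H318R2.Cr Pool.Agent.H398R2.RK

open scoped Classical

/-- the product of `1 - 1/p` over the middle primes -/
theorem prodS_bound : ∃ C : ℝ, 0 < C ∧ ∃ t₀ : ℝ, ∀ y t : ℝ, 0 < y → Real.log y = Real.exp t → t₀ ≤ t →
    ∏ p ∈ (Icc 1 ⌊Real.exp (Real.log y * Real.log t / (10 * t))⌋₊).filter
      (fun p : ℕ => p.Prime ∧ (Real.log y) ^ 2 < (p : ℝ)), (1 - 1 / (p : ℝ)) ≤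
      C * (t ^ 2 / (Real.log y * Real.log t)) := by
  obtain ⟨c₁, c₂, hc₁, hc₁₂, hV⟩ := cz_bounds
  obtain ⟨t₀, hev⟩ := ev_surv
  have hc₂ : 0 < c₂ := hc₁.trans_le hc₁₂
  refine ⟨c₂ / c₁ * 40, by positivity, t₀, fun y t hy0 hLe htt => ?_⟩
  obtain ⟨h1, h2, h3, h4, h5, h6⟩ := hev t htt
  have hly : 0 < Real.log y := by rw [hLe]; exact Real.exp_pos t
  set V0 := Real.log y * Real.log t / (10 * t) with hV0
  have ht0 : 0 < t := by linarith
  have hlt0 : 0 < Real.log t := by linarith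
  have hV1 : 2 * t ≤ V0 := by
    rw [hV0, le_div_iff₀ (by positivity), hLe]
    nlinarith [Real.exp_pos t]
  set v₀ : ℝ := (Real.log y) ^ 2 with hv₀
  have hv₀e : v₀ = Real.exp (2 * t) := by
    rw [hv₀, hLe, ← Real.exp_nat_mul]; push_cast; ring_nf
  have hv₀0 : 0 < v₀ := by positivity
  have hv₀big : 10000 ≤ v₀ := by rw [hv₀, hLe]; nlinarith
  set u : ℕ := ⌊v₀⌋₊ with hu
  set v : ℕ := ⌊Real.exp V0⌋₊ with hv
  have huv : u ≤ v := by
    rw [hu, hv]; apply Nat.floor_le_floor; rw [hv₀e]; exact Real.exp_le_exp.2 hV1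
  have hu2 : 2 ≤ u := by
    rw [hu, Nat.le_floor_iff hv₀0.le]; push_cast; linarith
  have hule : (u : ℝ) ≤ v₀ := Nat.floor_le hv₀0.le
  have hv0 : (0 : ℝ) < v := by exact_mod_cast (by omega : 0 < v)
  have hu0 : (0 : ℝ) < u := by exact_mod_cast (by omega : 0 < u)
  have hlu : Real.log u ≤ 2 * t := by
    rw [← Real.log_exp (2 * t), ← hv₀e]; exact Real.log_le_log hu0 hule
  have hlu0 : 0 < Real.log u := Real.log_pos (by exact_mod_cast (by omega : 1 < u))
  have hlv0 : 0 < Real.log v := Real.log_pos (by exact_mod_cast (by omega : 1 < v))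
  have hlv : V0 / 2 ≤ Real.log v := by
    have h7 : Real.exp V0 < v + 1 := Nat.lt_floor_add_one _
    have h8 : (2 : ℝ) ≤ v := by exact_mod_cast (by omega : 2 ≤ v)
    have h9 : Real.exp V0 ≤ (v : ℝ) ^ 2 := by nlinarith
    have h10 := Real.log_le_log (Real.exp_pos _) h9
    rw [Real.log_exp, Real.log_pow] at h10
    push_cast at h10; linarith
  set S : Finset ℕ := (Icc 1 v).filter (fun p : ℕ => p.Prime ∧ v₀ < (p : ℝ)) with hS
  have hSp : ∀ p ∈ S, p.Prime := by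
    intro p hp
    rw [hS, mem_filter] at hp
    exact hp.2.1
  have hSv : ∀ p ∈ S, v₀ < (p : ℝ) := fun p hp => (mem_filter.1 hp).2.2
  have hPv : V v = V u * ∏ p ∈ S, (1 - 1 / (p : ℝ)) := by
    have h7 : Pz v = Pz u ∪ S := by
      ext p
      rw [mem_union, mem_Pz, mem_Pz, hS, mem_filter, mem_Icc, hu, Nat.le_floor_iff hv₀0.le]
      constructor
      · rintro ⟨hp, hpv⟩
        by_cases h : (p : ℝ) ≤ v₀
        · exact Or.inl ⟨hp, h⟩
        · exact Or.inr ⟨⟨hp.pos, hpv⟩, hp, not_le.1 h⟩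
      · rintro (⟨hp, hpu⟩ | ⟨⟨_, hpv⟩, hp, _⟩)
        · refine ⟨hp, ?_⟩
          have : p ≤ u := by rw [hu, Nat.le_floor_iff hv₀0.le]; exact hpu
          omega
        · exact ⟨hp, hpv⟩
    have h8 : Disjoint (Pz u) S := by
      rw [Finset.disjoint_left]
      intro p hp hpS
      have h9 := (mem_Pz.1 hp).2
      rw [hu, Nat.le_floor_iff hv₀0.le] at h9
      have := hSv p hpS
      linarith
    unfold V
    rw [h7, prod_union h8]
  have hSprod0 : 0 ≤ ∏ p ∈ S, (1 - 1 / (p : ℝ)) :=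
    prod_nonneg fun p hp => (one_sub_inv_pos (hSp p hp)).le
  have h7 := (hV v (by omega)).2
  have h8 := (hV u hu2).1
  rw [hPv] at h7
  have hVu := V_pos u
  have h9 : c₁ * (∏ p ∈ S, (1 - 1 / (p : ℝ))) * (V0 / 2) ≤ c₂ * (2 * t) := by
    calc c₁ * (∏ p ∈ S, (1 - 1 / (p : ℝ))) * (V0 / 2)
        ≤ (V u * Real.log u) * (∏ p ∈ S, (1 - 1 / (p : ℝ))) * Real.log v := by
          gcongr
      _ = (V u * (∏ p ∈ S, (1 - 1 / (p : ℝ))) * Real.log v) * Real.log u := by ring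
      _ ≤ c₂ * Real.log u := by gcongr
      _ ≤ _ := by gcongr
  have hV0pos : 0 < V0 := by linarith
  have h10 : ∏ p ∈ S, (1 - 1 / (p : ℝ)) ≤ c₂ * (2 * t) / (c₁ * (V0 / 2)) := by
    rw [le_div_iff₀ (by positivity)]
    linarith
  refine h10.trans (le_of_eq ?_)
  rw [hV0]
  field_simp
  ring

/-- multiples of a member of a set of primes -/
theorem mult_card (E : Finset ℕ) (hE : ∀ p ∈ E, p.Prime) (L : ℕ) :
    (((Icc 1 L).filter (fun m => ∃ p ∈ E, p ∣ m)).card : ℝ) ≤ L * ∑ p ∈ E, 1 / (p : ℝ) := by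
  have h1 : (Icc 1 L).filter (fun m => ∃ p ∈ E, p ∣ m) ⊆
      E.biUnion (fun p => (Icc 1 (L / p)).image (fun j => p * j)) := by
    intro m hm
    rw [mem_filter, mem_Icc] at hm
    obtain ⟨⟨hm1, hm2⟩, p, hp, j, rfl⟩ := hm
    rw [mem_biUnion]
    refine ⟨p, hp, ?_⟩
    rw [mem_image]
    refine ⟨j, ?_, rfl⟩
    rw [mem_Icc]
    have hp0 := (hE p hp).pos
    refine ⟨?_, ?_⟩
    · by_contra h
      have : j = 0 := by omega
      rw [this] at hm1; simp at hm1
    · rw [Nat.le_div_iff_mul_le hp0, mul_comm]; exact hm2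
  calc (((Icc 1 L).filter (fun m => ∃ p ∈ E, p ∣ m)).card : ℝ)
      ≤ ((E.biUnion (fun p => (Icc 1 (L / p)).image (fun j => p * j))).card : ℝ) := by
        exact_mod_cast card_le_card h1
    _ ≤ ((∑ p ∈ E, ((Icc 1 (L / p)).image (fun j => p * j)).card : ℕ) : ℝ) := by
        exact_mod_cast card_biUnion_le
    _ ≤ ∑ p ∈ E, (L : ℝ) / p := by
        push_cast
        apply sum_le_sum
        intro p _
        have h2 : ((Icc 1 (L / p)).image (fun j => p * j)).card ≤ L / p := by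
          refine card_image_le.trans ?_
          simp
        calc (((Icc 1 (L / p)).image (fun j => p * j)).card : ℝ) ≤ ((L / p : ℕ) : ℝ) := by
              exact_mod_cast h2
          _ ≤ _ := Nat.cast_div_le
    _ = _ := by
        rw [mul_sum]
        apply sum_congr rfl
        intro p _
        ring

/-- a prime times an integer with prime factors in `D` -/
theorem x3_card (y : ℝ) (L : ℕ) (hy : 16 ≤ y) (hly : 4 ≤ Real.log y) (hyL : y ≤ L) (v₀ : ℝ) (hv₀ : 1 ≤ v₀)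
    (hv : v₀ ^ 4 ≤ y) (D : Finset ℕ) (hD : ∀ p ∈ D, p.Prime) :
    (((Icc 1 L).filter (fun m => ∃ p m' : ℕ, p.Prime ∧ m = p * m' ∧ (m' : ℝ) < v₀ ∧
      ∀ q : ℕ, q.Prime → q ∣ m' → q ∈ D)).card : ℝ) ≤
      20 * L / Real.log y * ∏ p ∈ D, (1 - 1 / (p : ℝ))⁻¹ := by
  set T : Finset ℕ := (Icc 1 ⌊v₀⌋₊).filter (fun m' => ∀ q : ℕ, q.Prime → q ∣ m' → q ∈ D) with hT
  have h1 : (Icc 1 L).filter (fun m => ∃ p m' : ℕ, p.Prime ∧ m = p * m' ∧ (m' : ℝ) < v₀ ∧
      ∀ q : ℕ, q.Prime → q ∣ m' → q ∈ D) ⊆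
      T.biUnion (fun m' => ((Icc 1 (L / m')).filter Nat.Prime).image (fun p => p * m')) := by
    intro m hm
    rw [mem_filter, mem_Icc] at hm
    obtain ⟨⟨hm1, hm2⟩, p, m', hp, rfl, hm', hq⟩ := hm
    have hm'0 : 0 < m' := by
      rcases Nat.eq_zero_or_pos m' with h | h
      · rw [h] at hm1; simp at hm1
      · exact h
    rw [mem_biUnion]
    refine ⟨m', ?_, ?_⟩
    · rw [hT, mem_filter, mem_Icc]
      exact ⟨⟨hm'0, by rw [Nat.le_floor_iff (by linarith)]; exact hm'.le⟩, hq⟩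
    · rw [mem_image]
      refine ⟨p, ?_, rfl⟩
      rw [mem_filter, mem_Icc]
      exact ⟨⟨hp.pos, by rw [Nat.le_div_iff_mul_le hm'0]; exact hm2⟩, hp⟩
  have hL0 : (0 : ℝ) < L := by linarith
  have hy0 : 0 < y := by linarith
  have h2 : ∀ m' ∈ T, ((((Icc 1 (L / m')).filter Nat.Prime).image (fun p => p * m')).card : ℝ) ≤
      20 * L / Real.log y * (1 / (m' : ℝ)) := by
    intro m' hm'
    rw [hT, mem_filter, mem_Icc] at hm'
    have hm'1 : 1 ≤ m' := hm'.1.1
    have hm'v : (m' : ℝ) ≤ v₀ := by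
      have := hm'.1.2
      rw [Nat.le_floor_iff (by linarith)] at this
      exact this
    have hm'0 : (0 : ℝ) < m' := by exact_mod_cast hm'1
    have hm'1r : (1 : ℝ) ≤ m' := by exact_mod_cast hm'1
    -- y^(3/4) ≤ L / m'
    have h3 : Real.sqrt y ≤ ((L / m' : ℕ) : ℝ) := by
      have h4 : (L : ℝ) / m' < ((L / m' : ℕ) : ℝ) + 1 := by
        rw [div_lt_iff₀ hm'0]
        have h5 : L < (L / m' + 1) * m' := by
          have := Nat.lt_mul_div_succ L hm'1
          linarith [this]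
        exact_mod_cast h5
      have h5 : y / v₀ ≤ (L : ℝ) / m' := div_le_div₀ hL0.le hyL hm'0 hm'v
      -- v₀ ≤ y^(1/4), so y / v₀ ≥ y^(3/4) ≥ sqrt y + 1
      have hs : Real.sqrt y * Real.sqrt y = y := Real.mul_self_sqrt hy0.le
      have hs4 : 4 ≤ Real.sqrt y := by
        rw [show (4 : ℝ) = Real.sqrt 16 by rw [show (16 : ℝ) = 4 ^ 2 by norm_num]; rw [Real.sqrt_sq (by norm_num)]]
        exact Real.sqrt_le_sqrt hy
      have h6 : v₀ ^ 2 ≤ Real.sqrt y := by
        apply Real.le_sqrt_of_sq_le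
        calc (v₀ ^ 2) ^ 2 = v₀ ^ 4 := by ring
          _ ≤ y := hv
      have hv00 : 0 < v₀ := by linarith
      have h7 : Real.sqrt y + 1 ≤ y / v₀ := by
        rw [le_div_iff₀ hv00]
        set s := Real.sqrt y with hsd
        -- (s+1) v₀ ≤ s²; v₀² ≤ s
        have h8 : v₀ ≤ s / 2 := by
          nlinarith [sq_nonneg (v₀ - 2)]
        nlinarith
      linarith
    have hLm : 2 ≤ L / m' := by
      have h4 : (2 : ℝ) ≤ ((L / m' : ℕ) : ℝ) := by
        have hs4 : 4 ≤ Real.sqrt y := by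
          rw [show (4 : ℝ) = Real.sqrt 16 by rw [show (16 : ℝ) = 4 ^ 2 by norm_num]; rw [Real.sqrt_sq (by norm_num)]]
          exact Real.sqrt_le_sqrt hy
        linarith
      exact_mod_cast h4
    have h5 := primes_le (L / m') hLm
    have h6 : Real.log y / 2 ≤ Real.log ((L / m' : ℕ) : ℝ) := by
      rw [← Real.log_sqrt hy0.le]
      exact Real.log_le_log (Real.sqrt_pos.2 hy0) h3
    have h7 : ((L / m' : ℕ) : ℝ) ≤ L / m' := Nat.cast_div_le
    calc ((((Icc 1 (L / m')).filter Nat.Prime).image (fun p => p * m')).card : ℝ)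
        ≤ (((Icc 1 (L / m')).filter Nat.Prime).card : ℝ) := by exact_mod_cast card_image_le
      _ ≤ _ := h5
      _ ≤ 10 * (L / m') / (Real.log y / 2) := by
          apply div_le_div₀ (by positivity) (by linarith) (by linarith) h6
      _ = _ := by field_simp; ring
  calc (((Icc 1 L).filter (fun m => ∃ p m' : ℕ, p.Prime ∧ m = p * m' ∧ (m' : ℝ) < v₀ ∧
      ∀ q : ℕ, q.Prime → q ∣ m' → q ∈ D)).card : ℝ)
      ≤ ((T.biUnion (fun m' => ((Icc 1 (L / m')).filter Nat.Prime).image (fun p => p * m'))).card : ℝ) := by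
        exact_mod_cast card_le_card h1
    _ ≤ ((∑ m' ∈ T, (((Icc 1 (L / m')).filter Nat.Prime).image (fun p => p * m')).card : ℕ) : ℝ) := by
        exact_mod_cast card_biUnion_le
    _ ≤ ∑ m' ∈ T, 20 * L / Real.log y * (1 / (m' : ℝ)) := by
        push_cast
        exact sum_le_sum h2
    _ = 20 * L / Real.log y * ∑ m' ∈ T, 1 / (m' : ℝ) := by rw [mul_sum]
    _ ≤ _ := by
        apply mul_le_mul_of_nonneg_left _ (by positivity)
        apply factored_sum D hD T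
        intro n hn
        rw [hT, mem_filter, mem_Icc] at hn
        exact ⟨hn.1.1, hn.2⟩

end Pool.Agent.H378R2.RM
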