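import Mathlib
import Pool.Agent.H378R2.RM.SurvE

set_option autoImplicit false
set_option maxHeartbeats 4000000

namespace Pool.Agent.H378R2.RM

open Finset Filter Pool.Agent.H318R2.Cr Pool.Agent.H398R2.RK

open scoped Classical

theorem fin_eq (A C L t l w : ℝ) (hl : 0 < l) (hw : 0 < w) :
    ((22 + A) * L / l) * (C * (t ^ 2 / (l * w))) = (22 + A) * C * L * t ^ 2 / (l ^ 2 * w) := by
  field_simp

theorem ev_pow8 : ∃ t₀ : ℝ, ∀ t : ℝ, t₀ ≤ t → 8 * t ≤ Real.exp t := by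
  refine ⟨16, fun t ht => ?_⟩
  have h5 := Real.quadratic_le_exp_of_nonneg (x := t) (by linarith)
  nlinarith

/-- Rankin's choice of residue classes modulo the primes up to `y` not in `D`. -/
theorem survE (A : ℝ) (hA : 0 ≤ A) : ∃ C : ℝ, 0 < C ∧ ∃ y₀ : ℝ, ∀ y : ℝ, y₀ ≤ y → ∀ L : ℕ, y ≤ L →
    (L : ℝ) ≤ y * (Real.log y) ^ 2 → ∀ D : Finset ℕ, (∀ p ∈ D, p.Prime) →
    (∑ p ∈ D with Real.exp (Real.log y * Real.log (Real.log (Real.log y)) /
      (10 * Real.log (Real.log y))) < ((p : ℕ) : ℝ), 1 / ((p : ℕ) : ℝ)) ≤ A / Real.log y →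
    ∃ b : ℕ → ℕ, (∀ p : ℕ, p.Prime → p ∉ D → (p : ℝ) ≤ y → b p < p) ∧
      (((Finset.Icc 1 L).filter (fun k => ∀ p : ℕ, p.Prime → p ∉ D → (p : ℝ) ≤ y →
        ¬ k ≡ b p [MOD p])).card : ℝ) * ∏ p ∈ D, (1 - 1 / (p : ℝ)) ≤
      C * L * (Real.log (Real.log y)) ^ 2 /
        ((Real.log y) ^ 2 * Real.log (Real.log (Real.log y))) := by
  obtain ⟨C₁, hC₁, t₁, hprod⟩ := prodS_bound
  obtain ⟨y₁, hsm⟩ := smooth_count
  obtain ⟨t₀, hev⟩ := ev_surv
  obtain ⟨t₂, hev2⟩ := ev_pow8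
  refine ⟨(22 + A) * C₁, by positivity,
    max y₁ (Real.exp (Real.exp (max t₀ (max t₁ t₂)))), fun y hy L hyL hLy D hD hDs => ?_⟩
  have hsm' := hsm y ((le_max_left _ _).trans hy) L hyL
  have hy' := (le_max_right _ _).trans hy
  have hy0 : 0 < y := (Real.exp_pos _).trans_le hy'
  have hL1' : Real.exp (max t₀ (max t₁ t₂)) ≤ Real.log y := by
    rw [← Real.log_exp (Real.exp (max t₀ (max t₁ t₂)))]; exact Real.log_le_log (Real.exp_pos _) hy'
  have hly : 0 < Real.log y := (Real.exp_pos _).trans_le hL1'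
  set t := Real.log (Real.log y) with ht
  have htt' : max t₀ (max t₁ t₂) ≤ t := by
    rw [← Real.log_exp (max t₀ (max t₁ t₂))]; exact Real.log_le_log (Real.exp_pos _) hL1'
  have htt : t₀ ≤ t := (le_max_left _ _).trans htt'
  have htt1 : t₁ ≤ t := ((le_max_left _ _).trans (le_max_right _ _)).trans htt'
  have htt2 : t₂ ≤ t := ((le_max_right _ _).trans (le_max_right _ _)).trans htt'
  obtain ⟨h1, h2, h3, h4, h5, h6⟩ := hev t htt
  have h8t := hev2 t htt2
  have hLe : Real.log y = Real.exp t := by rw [ht, Real.exp_log hly]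
  have hye : y = Real.exp (Real.exp t) := by rw [← hLe, Real.exp_log hy0]
  have hPS := hprod y t hy0 hLe htt1
  set V0 := Real.log y * Real.log t / (10 * t) with hV0
  have ht0 : 0 < t := by linarith
  have hlt0 : 0 < Real.log t := by linarith
  have hV1 : 2 * t ≤ V0 := by
    rw [hV0, le_div_iff₀ (by positivity), hLe]
    nlinarith [Real.exp_pos t]
  have hV1le : V0 ≤ Real.log y := by
    rw [hV0, div_le_iff₀ (by positivity), hLe]
    nlinarith [Real.exp_pos t]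
  set v₀ : ℝ := (Real.log y) ^ 2 with hv₀
  have hv₀e : v₀ = Real.exp (2 * t) := by
    rw [hv₀, hLe, ← Real.exp_nat_mul]; push_cast; ring_nf
  have hv₀0 : 0 < v₀ := by positivity
  have hv₀big : 10000 ≤ v₀ := by rw [hv₀, hLe]; nlinarith
  have hv₀y : v₀ ≤ y := by
    rw [hv₀e, hye]; apply Real.exp_le_exp.2; linarith
  have hv₀4 : v₀ ^ 4 ≤ y := by
    rw [hv₀e, hye, ← Real.exp_nat_mul]; apply Real.exp_le_exp.2; push_cast; linarith
  set v : ℕ := ⌊Real.exp V0⌋₊ with hv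
  have hl100 : 100 ≤ Real.log y := by rw [hLe]; exact h4
  have hy16 : 16 ≤ y := by linarith
  -- middle primes
  set S : Finset ℕ := (Icc 1 v).filter (fun p : ℕ => p.Prime ∧ v₀ < (p : ℝ)) with hS
  have hSp : ∀ p ∈ S, p.Prime := by
    intro p hp
    rw [hS, mem_filter] at hp
    exact hp.2.1
  have hSv : ∀ p ∈ S, v₀ < (p : ℝ) := fun p hp => (mem_filter.1 hp).2.2
  have hSmem : ∀ p : ℕ, p.Prime → (p ∈ S ↔ v₀ < (p : ℝ) ∧ Real.log p ≤ V0) := by
    intro p hp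
    have hp0 : (0 : ℝ) < p := by exact_mod_cast hp.pos
    rw [hS, mem_filter, mem_Icc, Real.log_le_iff_le_exp hp0, hv, Nat.le_floor_iff (Real.exp_pos _).le]
    constructor
    · rintro ⟨⟨_, h⟩, _, h'⟩; exact ⟨h', h⟩
    · rintro ⟨h, h'⟩; exact ⟨⟨hp.pos, h'⟩, hp, h⟩
  set D₁ := D.filter (fun p : ℕ => (p : ℝ) ≤ v₀) with hD₁
  set D₂ := D.filter (fun p : ℕ => Real.exp V0 < (p : ℝ)) with hD₂
  have hD1p : ∀ p ∈ D₁, p.Prime := fun p hp => hD p (mem_filter.1 hp).1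
  have hD2p : ∀ p ∈ D₂, p.Prime := fun p hp => hD p (mem_filter.1 hp).1
  -- R
  set R := (Icc 1 L).filter (fun k => ∀ p : ℕ, p.Prime → (p : ℝ) ≤ y → p ∉ D → p ∉ S → ¬ k ≡ 1 [MOD p]) with hR
  obtain ⟨b, hb, hbc⟩ := Pool.Agent.H398R2.RK.greedy_all (S \ D) (fun p hp => hSp p (Finset.mem_sdiff.1 hp).1) R
  refine ⟨fun p => if p ∈ S \ D then b p else 1, ?_, ?_⟩
  · intro p hp hpD _
    by_cases hpS : p ∈ S \ D
    · simp only [hpS, if_true]; exact hb p hpS
    · simp only [hpS, if_false]; exact hp.one_lt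
  have hsub1 : (Finset.Icc 1 L).filter (fun k => ∀ p : ℕ, p.Prime → p ∉ D → (p : ℝ) ≤ y →
      ¬ k ≡ (if p ∈ S \ D then b p else 1) [MOD p]) ⊆
      R.filter (fun k => ∀ p ∈ S \ D, ¬ k ≡ b p [MOD p]) := by
    intro k hk
    rw [mem_filter] at hk
    rw [mem_filter, hR, mem_filter]
    refine ⟨⟨hk.1, fun p hp hpy hpD hpS => ?_⟩, fun p hpS => ?_⟩
    · have := hk.2 p hp hpD hpy
      rwa [if_neg (fun h => hpS (Finset.mem_sdiff.1 h).1)] at this
    · have hpS' := Finset.mem_sdiff.1 hpS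
      have hpp := hSp p hpS'.1
      have hp0 : (0 : ℝ) < p := by exact_mod_cast hpp.pos
      have hpy : (p : ℝ) ≤ y := by
        have h7 := ((hSmem p hpp).1 hpS'.1).2
        rw [← Real.log_le_log_iff hp0 hy0]; linarith
      have := hk.2 p hpp hpS'.2 hpy
      rwa [if_pos hpS] at this
  have hL0 : (0 : ℝ) < L := by linarith
  -- the three parts
  set X₁ := (Finset.Icc 1 L).filter (fun m => ∀ p : ℕ, p.Prime → p ∣ m → Real.log p ≤ V0) with hX₁
  set X₂ := (Icc 1 L).filter (fun m => ∃ p ∈ D₂, p ∣ m) with hX₂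
  set X₃ := (Icc 1 L).filter (fun m => ∃ p m' : ℕ, p.Prime ∧ m = p * m' ∧ (m' : ℝ) < v₀ ∧
      ∀ q : ℕ, q.Prime → q ∣ m' → q ∈ D₁) with hX₃
  have hRsub : R ⊆ insert 1 ((X₁ ∪ X₂ ∪ X₃).image (· + 1)) := by
    intro k hk
    rw [hR, mem_filter, mem_Icc] at hk
    obtain ⟨⟨hk1, hkL⟩, hk2⟩ := hk
    rw [mem_insert]
    rcases Nat.eq_or_lt_of_le hk1 with hk3 | hk3
    · left; exact hk3.symm
    right
    obtain ⟨m, rfl⟩ : ∃ m, k = m + 1 := ⟨k - 1, by omega⟩
    rw [mem_image]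
    refine ⟨m, ?_, rfl⟩
    have hm1 : 1 ≤ m := by omega
    have hfac : ∀ p : ℕ, p.Prime → p ∣ m → (y < p ∨ p ∈ S ∨ p ∈ D) := by
      intro p hp hd
      by_contra hcon
      push Not at hcon
      refine hk2 p hp hcon.1 hcon.2.2 hcon.2.1 ?_
      have : m ≡ 0 [MOD p] := (Nat.modEq_zero_iff_dvd).2 hd
      simpa using this.add_right 1
    rw [mem_union, mem_union]
    by_cases hall : ∀ p : ℕ, p.Prime → p ∣ m → Real.log p ≤ V0
    · left; left
      rw [hX₁, mem_filter, mem_Icc]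
      exact ⟨⟨hm1, by omega⟩, hall⟩
    · push Not at hall
      obtain ⟨p, hp, hd, hlp⟩ := hall
      have hp0 : (0 : ℝ) < p := by exact_mod_cast hp.pos
      by_cases hpD : p ∈ D
      · left; right
        rw [hX₂, mem_filter, mem_Icc]
        refine ⟨⟨hm1, by omega⟩, p, ?_, hd⟩
        rw [hD₂, mem_filter]
        refine ⟨hpD, ?_⟩
        rwa [Real.lt_log_iff_exp_lt hp0] at hlp
      · right
        have hpy : y < p := by
          rcases hfac p hp hd with h | h | h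
          · exact h
          · exact absurd ((hSmem p hp).1 h).2 (not_le.2 hlp)
          · exact absurd h hpD
        obtain ⟨m', rfl⟩ := hd
        have hm'0 : m' ≠ 0 := by rintro rfl; simp at hm1
        have hm'le : (m' : ℝ) < v₀ := by
          have h7 : (p : ℝ) * m' ≤ L := by exact_mod_cast (by omega : p * m' ≤ L)
          have h8 : (0 : ℝ) < m' := by exact_mod_cast Nat.pos_of_ne_zero hm'0
          have h9 : y * m' < y * v₀ := by
            calc y * m' < p * m' := by gcongr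
              _ ≤ L := h7
              _ ≤ _ := hLy
          exact lt_of_mul_lt_mul_left h9 hy0.le
        rw [hX₃, mem_filter, mem_Icc]
        refine ⟨⟨hm1, by omega⟩, p, m', hp, rfl, hm'le, fun q hq hqd => ?_⟩
        have hqle : q ≤ m' := Nat.le_of_dvd (Nat.pos_of_ne_zero hm'0) hqd
        have hqv : (q : ℝ) < v₀ := lt_of_le_of_lt (by exact_mod_cast hqle) hm'le
        rcases hfac q hq (hqd.mul_left p) with h | h | h
        · linarith
        · have := hSv q h; linarith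
        · rw [hD₁, mem_filter]; exact ⟨h, hqv.le⟩
  have hPi1 := inv_le_one_of D₁ hD1p
  have hRcard : (R.card : ℝ) * ∏ p ∈ D₁, (1 - 1 / (p : ℝ)) ≤ (22 + A) * L / Real.log y := by
    have h7 : R.card ≤ X₁.card + X₂.card + X₃.card + 1 := by
      refine (card_le_card hRsub).trans ((card_insert_le _ _).trans ?_)
      have := (card_image_le (s := X₁ ∪ X₂ ∪ X₃) (f := (· + 1)))
      have h8 := card_union_le (X₁ ∪ X₂) X₃
      have h9 := card_union_le X₁ X₂
      omega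
    have h8 : (R.card : ℝ) ≤ (X₁.card : ℝ) + X₂.card + X₃.card + 1 := by exact_mod_cast h7
    have h10 : (X₂.card : ℝ) ≤ A * (L / Real.log y) := by
      refine (mult_card D₂ hD2p L).trans ?_
      calc (L : ℝ) * ∑ p ∈ D₂, 1 / (p : ℝ) ≤ L * (A / Real.log y) :=
            mul_le_mul_of_nonneg_left hDs hL0.le
        _ = _ := by ring
    have h11 : (X₁.card : ℝ) ≤ 1 * (L / Real.log y) := by
      refine hsm'.trans ?_
      rw [one_mul]
      apply div_le_div_of_nonneg_left hL0.le hly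
      rw [hLe]
      nlinarith [sq_nonneg (Real.exp t)]
    have h12 : (X₃.card : ℝ) ≤ 20 * L / Real.log y * ∏ p ∈ D₁, (1 - 1 / (p : ℝ))⁻¹ :=
      x3_card y L hy16 (by linarith) hyL v₀ (by linarith) hv₀4 D₁ hD1p
    have h13 : (1 : ℝ) ≤ L / Real.log y := by
      rw [le_div_iff₀ hly]
      have : Real.log y ≤ y - 1 := Real.log_le_sub_one_of_pos hy0
      linarith
    have h14 : (∏ p ∈ D₁, (1 - 1 / (p : ℝ))⁻¹) * ∏ p ∈ D₁, (1 - 1 / (p : ℝ)) = 1 := by
      rw [prod_inv_distrib, inv_mul_cancel₀ hPi1.1.ne']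
    set Pa := ∏ p ∈ D₁, (1 - 1 / (p : ℝ)) with hPa
    set Pb := ∏ p ∈ D₁, (1 - 1 / (p : ℝ))⁻¹ with hPb
    set w := (L : ℝ) / Real.log y with hw
    have e1 : 20 * L / Real.log y * Pb = 20 * w * Pb := by rw [hw]; ring
    have e2 : (22 + A) * L / Real.log y = (22 + A) * w := by rw [hw]; ring
    rw [e1] at h12
    rw [e2]
    calc (R.card : ℝ) * Pa ≤ (1 * w + A * w + 20 * w * Pb + 1) * Pa := by
          apply mul_le_mul_of_nonneg_right _ hPi1.1.le
          linarith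
      _ = (w + A * w + 1) * Pa + 20 * w * (Pb * Pa) := by ring
      _ ≤ (w + A * w + 1) * 1 + 20 * w * 1 := by
          rw [h14]
          have : 0 ≤ w + A * w + 1 := by positivity
          have := mul_le_mul_of_nonneg_left hPi1.2 this
          linarith
      _ ≤ _ := by linarith
  -- products
  have hSD : (∏ p ∈ S \ D, (1 - 1 / (p : ℝ))) * ∏ p ∈ S ∩ D, (1 - 1 / (p : ℝ)) =
      ∏ p ∈ S, (1 - 1 / (p : ℝ)) := by
    rw [← prod_union (disjoint_sdiff_inter S D), sdiff_union_inter]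
  have hDle : ∏ p ∈ D, (1 - 1 / (p : ℝ)) ≤
      (∏ p ∈ D₁, (1 - 1 / (p : ℝ))) * ∏ p ∈ S ∩ D, (1 - 1 / (p : ℝ)) := by
    rw [← prod_union]
    · apply prod_anti hD
      intro p hp
      rw [mem_union] at hp
      rcases hp with h | h
      · exact (mem_filter.1 h).1
      · exact (mem_inter.1 h).2
    · rw [Finset.disjoint_left]
      intro p hp hpS
      have h9 := (mem_filter.1 hp).2
      have := hSv p (mem_inter.1 hpS).1
      linarith
  have hSD0 : 0 ≤ ∏ p ∈ S \ D, (1 - 1 / (p : ℝ)) :=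
    prod_nonneg fun p hp => (one_sub_inv_pos (hSp p (Finset.mem_sdiff.1 hp).1)).le
  have hSI0 : 0 ≤ ∏ p ∈ S ∩ D, (1 - 1 / (p : ℝ)) :=
    prod_nonneg fun p hp => (one_sub_inv_pos (hSp p (mem_inter.1 hp).1)).le
  have hS0 : 0 ≤ ∏ p ∈ S, (1 - 1 / (p : ℝ)) :=
    prod_nonneg fun p hp => (one_sub_inv_pos (hSp p hp)).le
  have hcard : (((Finset.Icc 1 L).filter (fun k => ∀ p : ℕ, p.Prime → p ∉ D → (p : ℝ) ≤ y →
      ¬ k ≡ (if p ∈ S \ D then b p else 1) [MOD p])).card : ℝ) ≤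
      R.card * ∏ p ∈ S \ D, (1 - 1 / (p : ℝ)) :=
    (Nat.cast_le.2 (card_le_card hsub1)).trans hbc
  calc (((Finset.Icc 1 L).filter (fun k => ∀ p : ℕ, p.Prime → p ∉ D → (p : ℝ) ≤ y →
      ¬ k ≡ (if p ∈ S \ D then b p else 1) [MOD p])).card : ℝ) * ∏ p ∈ D, (1 - 1 / (p : ℝ))
      ≤ (R.card * ∏ p ∈ S \ D, (1 - 1 / (p : ℝ))) *
        ((∏ p ∈ D₁, (1 - 1 / (p : ℝ))) * ∏ p ∈ S ∩ D, (1 - 1 / (p : ℝ))) := by
        exact mul_le_mul hcard hDle (inv_le_one_of D hD).1.le (mul_nonneg (Nat.cast_nonneg _) hSD0)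
    _ = (R.card * ∏ p ∈ D₁, (1 - 1 / (p : ℝ))) * ((∏ p ∈ S \ D, (1 - 1 / (p : ℝ))) *
          ∏ p ∈ S ∩ D, (1 - 1 / (p : ℝ))) := by ring
    _ ≤ ((22 + A) * L / Real.log y) * (C₁ * (t ^ 2 / (Real.log y * Real.log t))) := by
        rw [hSD]
        apply mul_le_mul hRcard hPS hS0
        positivity
    _ = _ := by
        rw [hv₀]
        exact fin_eq A C₁ L t (Real.log y) (Real.log t) hly hlt0

end Pool.Agent.H378R2.RM
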