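import Mathlib
import Pool.Agent.H378R2.RM.SurvM
import Pool.Agent.H378R2.RM.Ev
import Pool.Agent.H256R2.SC.V

set_option autoImplicit false
set_option maxHeartbeats 4000000

namespace Pool.Agent.H378R2.RM

open Finset Pool.Agent.H256R2.SC.G3

open scoped Classical

/-- the size of the record: `log d (log_2 d)^2 log_4 d / (log_3 d)^2`, as a function of `l = log d` -/
noncomputable def FF (l : ℝ) : ℝ :=
  l * (Real.log l) ^ 2 * Real.log (Real.log (Real.log l)) / (Real.log (Real.log l)) ^ 2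

theorem record_progression_of (hcov : Covering) (A : ℝ) (hA : 0 ≤ A) :
    ∃ c : ℝ, 0 < c ∧ ∃ d₀ : ℕ, ∀ d : ℕ, d₀ ≤ d →
    (∑ p ∈ d.primeFactors with Real.exp (Real.log (Real.log d) * Real.log (Real.log (Real.log (Real.log d))) /
      (20 * Real.log (Real.log (Real.log d)))) < ((p : ℕ) : ℝ), 1 / ((p : ℕ) : ℝ)) ≤ A / Real.log (Real.log d) →
    ∃ a : ℕ, 1 ≤ a ∧ a < d ∧ Nat.Coprime a d ∧
      ∀ p : ℕ, p.Prime → p % d = a →
        c * (Nat.totient d : ℝ) * FF (Real.log d) < p := by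
  obtain ⟨c₁, hc₁, X₀, hcov⟩ := hcov
  obtain ⟨C, hC0, y₀, hsurv⟩ := survE A hA
  obtain ⟨c₃, hc₃, D₀, htot⟩ := tot_low
  obtain ⟨D₁, hD₁⟩ := omega_bound
  set c' : ℝ := min 1 (c₁ / (8 * C)) with hc'
  have hc'0 : 0 < c' := by rw [hc']; exact lt_min one_pos (by positivity)
  have hc'1 : c' ≤ 1 := min_le_left _ _
  have hc'2 : 8 * C * c' ≤ c₁ := by
    have h1 : c' ≤ c₁ / (8 * C) := min_le_right _ _
    rw [le_div_iff₀ (by positivity)] at h1
    linarith
  obtain ⟨l₀, hev⟩ := ev_rm (1 / (c' * c₃)) y₀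
  obtain ⟨D₂, hD₂⟩ : ∃ D₂ : ℕ, Real.exp (max 400 (max l₀ D₀)) ≤ D₂ := exists_nat_ge _
  obtain ⟨D₃, hD₃⟩ : ∃ D₃ : ℕ, X₀ ≤ D₃ := exists_nat_ge _
  refine ⟨c' / 8, by positivity, max D₁ (max D₂ D₃), fun d hd hcond => ?_⟩
  have hd1 : D₁ ≤ d := (le_max_left _ _).trans hd
  have hd2 : D₂ ≤ d := ((le_max_left _ _).trans (le_max_right _ _)).trans hd
  have hd3 : D₃ ≤ d := ((le_max_right _ _).trans (le_max_right _ _)).trans hd
  have hX0 : X₀ ≤ d := hD₃.trans (by exact_mod_cast hd3)
  have hexp : Real.exp (max 400 (max l₀ D₀)) ≤ d := hD₂.trans (by exact_mod_cast hd2)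
  have hdpos : (0 : ℝ) < d := (Real.exp_pos _).trans_le hexp
  have hd0 : d ≠ 0 := by
    intro h; rw [h] at hdpos; simp at hdpos
  have hlm : max 400 (max l₀ D₀) ≤ Real.log d := by
    rw [Real.le_log_iff_exp_le hdpos]; exact hexp
  have hl : 400 ≤ Real.log d := (le_max_left _ _).trans hlm
  have hll0 : l₀ ≤ Real.log d := ((le_max_left _ _).trans (le_max_right _ _)).trans hlm
  have hlD0 : D₀ ≤ Real.log d := ((le_max_right _ _).trans (le_max_right _ _)).trans hlm
  have hdr1 : (1 : ℝ) ≤ d := by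
    have h1 : Real.exp 0 ≤ Real.exp (max 400 (max l₀ D₀)) :=
      Real.exp_le_exp.2 ((by norm_num : (0 : ℝ) ≤ 400).trans (le_max_left _ _))
    rw [Real.exp_zero] at h1
    linarith
  have htd := htot d hlD0
  obtain ⟨-, ey0, esq, eL2, eL3, eL4, ea, eb, eK, eq⟩ := hev (Real.log d) hll0
  obtain ⟨s1, s2, s3, s4⟩ := sizes (Real.log d) hl
  set l := Real.log d with hldef
  set u := Real.log l with hu
  set s := Real.log u with hs
  set w := Real.log s with hw
  set Ny := ⌊l / 10⌋₊ with hNy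
  have hNyle : (Ny : ℝ) ≤ l / 10 := Nat.floor_le (by linarith)
  have hom := hD₁ d hd1
  set pf := d.primeFactors with hpf
  set S := ((Finset.Icc 1 Ny).filter Nat.Prime) \ pf with hS
  have hSp : ∀ p ∈ S, p.Prime := by
    intro p hp
    rw [hS, Finset.mem_sdiff, Finset.mem_filter] at hp
    exact hp.1.2
  have hSle : ∀ p ∈ S, p ≤ Ny := by
    intro p hp
    rw [hS, Finset.mem_sdiff, Finset.mem_filter, Finset.mem_Icc] at hp
    exact hp.1.1.2
  have hSd : ∀ p ∈ S, ¬ p ∣ d := by
    intro p hp hpd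
    have h1 := hSp p hp
    rw [hS, Finset.mem_sdiff] at hp
    exact hp.2 (Nat.mem_primeFactors.2 ⟨h1, hpd, hd0⟩)
  set P := ∏ p ∈ S, p with hP
  have hPpos : 0 < P := Finset.prod_pos fun p hp => (hSp p hp).pos
  have hPd : Nat.Coprime P d := by
    rw [hP]
    apply Nat.Coprime.prod_left
    intro p hp
    exact (Nat.Prime.coprime_iff_not_dvd (hSp p hp)).2 (hSd p hp)
  have hPle : P ≤ 4 ^ Ny := by
    refine le_trans ?_ (primorial_le_four_pow Ny)
    unfold primorial
    apply Finset.prod_le_prod_of_subset_of_one_le'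
    · intro p hp
      rw [Finset.mem_filter, Finset.mem_range]
      exact ⟨Nat.lt_succ_of_le (hSle p hp), hSp p hp⟩
    · intro p hp _
      rw [Finset.mem_filter] at hp
      exact hp.2.one_lt.le
  have hPr : (P : ℝ) ≤ (d : ℝ) ^ (7 / 50 : ℝ) := by
    have h1 : (P : ℝ) ≤ (4 : ℝ) ^ Ny := by exact_mod_cast hPle
    have h2 : (4 : ℝ) ^ Ny = Real.exp (Ny * Real.log 4) := by
      rw [← Real.rpow_natCast, Real.rpow_def_of_pos (by norm_num)]
      ring_nf
    have h3 : (d : ℝ) ^ (7 / 50 : ℝ) = Real.exp (l * (7 / 50)) := by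
      rw [Real.rpow_def_of_pos hdpos]
    rw [h3]
    rw [h2] at h1
    refine h1.trans (Real.exp_le_exp.2 ?_)
    have h4 : Real.log 4 = 2 * Real.log 2 := by
      rw [show (4 : ℝ) = 2 ^ 2 by norm_num, Real.log_pow]; push_cast; ring
    have h5 := Real.log_two_lt_d9
    have h6 : Real.log 4 ≤ 7 / 5 := by linarith
    have h7 : 0 ≤ Real.log 4 := by rw [h4]; have := Real.log_two_gt_d9; linarith
    nlinarith
  -- the number of shifts
  have hl0 : 0 < l := by linarith
  have hu0 : 0 < u := by linarith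
  have hs0 : 0 < s := by linarith
  have hw0 : 0 < w := by linarith
  have hFF : FF l = l * u ^ 2 * (w / s ^ 2) := by
    unfold FF
    rw [← hu, ← hs, ← hw]; ring
  set t : ℝ := c' * (Nat.totient d : ℝ) / d * FF l with ht
  set M := ⌊t⌋₊ with hM
  have hF0 : 0 < FF l := by rw [hFF]; positivity
  have ht0 : 0 ≤ t := by
    rw [ht]
    positivity
  have hMt : (M : ℝ) ≤ t := Nat.floor_le ht0
  have hphi1 : (Nat.totient d : ℝ) / d ≤ 1 := by
    rw [div_le_one hdpos]
    exact_mod_cast Nat.totient_le d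
  have hphi0 : 0 < (Nat.totient d : ℝ) / d := by
    have : 0 < Nat.totient d := Nat.totient_pos.2 (Nat.pos_of_ne_zero hd0)
    positivity
  have htF : t ≤ FF l := by
    have e : t = c' * ((Nat.totient d : ℝ) / d) * FF l := by rw [ht]; ring
    rw [e]
    have h1 : c' * ((Nat.totient d : ℝ) / d) ≤ 1 := by nlinarith
    nlinarith
  have hFl : FF l ≤ l * u ^ 2 * (1 / 100) := by
    rw [hFF]
    apply mul_le_mul_of_nonneg_left eq (by positivity)
  have htl : t ≤ l ^ 2 := by
    have h1 : l * u ^ 2 * (1 / 100) ≤ l * l := by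
      have := mul_le_mul_of_nonneg_left esq hl0.le
      nlinarith
    calc t ≤ _ := htF
      _ ≤ _ := hFl
      _ ≤ l * l := h1
      _ = l ^ 2 := by ring
  -- `y = l / 10`
  set y : ℝ := l / 10 with hy
  have hy0 : 0 < y := by rw [hy]; positivity
  have hlyu : Real.log y ≤ u := Real.log_le_log hy0 (by rw [hy]; linarith)
  have hly0 : 0 < Real.log y := lt_of_lt_of_le (by linarith) ea
  have hlly : Real.log (Real.log y) ≤ s := Real.log_le_log hly0 hlyu
  have hlly0 : 0 < Real.log (Real.log y) := by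
    have h1 : 1 < Real.log y := by
      have : 100 ≤ u := by
        have := Real.log_le_sub_one_of_pos hu0
        linarith
      linarith
    exact Real.log_pos h1
  have hML : (M : ℝ) ≤ y * (Real.log y) ^ 2 := by
    refine hMt.trans (htF.trans (hFl.trans ?_))
    have h1 : u ^ 2 * (9 / 16) ≤ (Real.log y) ^ 2 := by
      calc u ^ 2 * (9 / 16) = (3 / 4 * u) ^ 2 := by ring
        _ ≤ _ := pow_le_pow_left₀ (by positivity) ea 2
    rw [hy]
    have h2 : 0 ≤ l * u ^ 2 := by positivity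
    have h3 : l * (u ^ 2 * (9 / 16)) ≤ l * (Real.log (l / 10)) ^ 2 :=
      mul_le_mul_of_nonneg_left h1 hl0.le
    nlinarith
  have hMy : y ≤ M := by
    have h1 : t < M + 1 := Nat.lt_floor_add_one t
    have h2 : y + 1 ≤ t := by
      have h3 : c₃ / u ≤ (Nat.totient d : ℝ) / d := by rw [totient_div d hd0]; exact htd
      have e : t = (c' * FF l) * ((Nat.totient d : ℝ) / d) := by rw [ht]; ring
      rw [e]
      have h4 : (c' * FF l) * (c₃ / u) ≤ (c' * FF l) * ((Nat.totient d : ℝ) / d) :=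
        mul_le_mul_of_nonneg_left h3 (by positivity)
      have h5 : (c' * FF l) * (c₃ / u) = l * ((c' * c₃) * (u * w / s ^ 2)) := by
        rw [hFF]; field_simp
      have h6 : 1 / (c' * c₃) ≤ u * w / s ^ 2 := by
        rw [le_div_iff₀ (by positivity)]
        calc 1 / (c' * c₃) * s ^ 2 ≤ u := eK
          _ ≤ u * w := by nlinarith
      have h7 : 1 ≤ (c' * c₃) * (u * w / s ^ 2) := by
        rw [div_le_iff₀ (by positivity)] at h6
        linarith
      have h8 : l * 1 ≤ l * ((c' * c₃) * (u * w / s ^ 2)) := mul_le_mul_of_nonneg_left h7 hl0.le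
      rw [hy]
      linarith
    linarith
  -- the condition on the prime factors
  have hcond' : (∑ p ∈ pf with Real.exp (Real.log y * Real.log (Real.log (Real.log y)) /
      (10 * Real.log (Real.log y))) < ((p : ℕ) : ℝ), 1 / ((p : ℕ) : ℝ)) ≤ A / Real.log y := by
    have h1 : u * w / (20 * s) ≤ Real.log y * Real.log (Real.log (Real.log y)) /
        (10 * Real.log (Real.log y)) := by
      rw [div_le_div_iff₀ (by positivity) (by positivity)]
      have h2 : (3 / 4 * u) * (3 / 4 * w) ≤ Real.log y * Real.log (Real.log (Real.log y)) :=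
        mul_le_mul ea eb (by positivity) hly0.le
      have h3 : 0 ≤ u * w := by positivity
      calc u * w * (10 * Real.log (Real.log y)) ≤ u * w * (10 * s) := by gcongr
        _ ≤ (3 / 4 * u * (3 / 4 * w)) * (20 * s) := by nlinarith [mul_nonneg h3 hs0.le]
        _ ≤ _ := by gcongr
    have h2 : (∑ p ∈ pf with Real.exp (Real.log y * Real.log (Real.log (Real.log y)) /
      (10 * Real.log (Real.log y))) < ((p : ℕ) : ℝ), 1 / ((p : ℕ) : ℝ)) ≤
      (∑ p ∈ pf with Real.exp (u * w / (20 * s)) < ((p : ℕ) : ℝ), 1 / ((p : ℕ) : ℝ)) := by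
      apply Finset.sum_le_sum_of_subset_of_nonneg
      · intro p hp
        rw [Finset.mem_filter] at hp ⊢
        exact ⟨hp.1, (Real.exp_le_exp.2 h1).trans_lt hp.2⟩
      · intro p _ _
        positivity
    refine h2.trans (hcond.trans ?_)
    exact div_le_div_of_nonneg_left hA hly0 hlyu
  obtain ⟨β, hβ1, hβ2⟩ := hsurv y (by rw [hy]; exact ey0) M hMy hML pf
    (fun p hp => Nat.prime_of_mem_primeFactors hp) hcond'
  set b : ℕ → ℕ := fun p => β p + p - 1 with hb
  set U := (Finset.range M).filter (fun k => ∀ p ∈ S, ¬ k ≡ b p [MOD p]) with hU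
  have hbeq : ∀ k p : ℕ, p.Prime → (k + 1 ≡ β p [MOD p] → k ≡ b p [MOD p]) := by
    intro k p hp h
    have hp1 := hp.one_lt.le
    have h1 : k + 1 ≡ b p + 1 [MOD p] := by
      have h2 : b p + 1 = β p + p := by simp only [hb]; omega
      rw [h2]
      calc k + 1 ≡ β p [MOD p] := h
        _ ≡ β p + p [MOD p] := by
          have : β p + 0 ≡ β p + p [MOD p] := Nat.ModEq.add_left _ (by
            rw [Nat.ModEq]; simp)
          simpa using this
    exact Nat.ModEq.add_right_cancel' 1 h1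
  have hUcard : (U.card : ℝ) ≤ c₁ * l := by
    have h0 : U.card ≤ ((Finset.Icc 1 M).filter (fun k => ∀ p : ℕ, p.Prime → p ∉ pf → (p : ℝ) ≤ y →
        ¬ k ≡ β p [MOD p])).card := by
      rw [← Finset.card_image_of_injective U (add_left_injective 1)]
      apply Finset.card_le_card
      intro k hk
      rw [Finset.mem_image] at hk
      obtain ⟨k', hk', rfl⟩ := hk
      rw [hU, Finset.mem_filter, Finset.mem_range] at hk'
      rw [Finset.mem_filter, Finset.mem_Icc]
      refine ⟨⟨by omega, by omega⟩, fun p hp hpd hpy h => ?_⟩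
      refine hk'.2 p ?_ (hbeq k' p hp h)
      rw [hS, Finset.mem_sdiff, Finset.mem_filter, Finset.mem_Icc]
      exact ⟨⟨⟨hp.one_lt.le, by rw [hNy]; exact Nat.le_floor hpy⟩, hp⟩, hpd⟩
    have h0' : (U.card : ℝ) ≤ (((Finset.Icc 1 M).filter (fun k => ∀ p : ℕ, p.Prime → p ∉ pf → (p : ℝ) ≤ y →
        ¬ k ≡ β p [MOD p])).card : ℝ) := by exact_mod_cast h0
    rw [← totient_div d hd0] at hβ2
    have h1 : (U.card : ℝ) * ((Nat.totient d : ℝ) / d) ≤ C * M * (Real.log (Real.log y)) ^ 2 /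
        ((Real.log y) ^ 2 * Real.log (Real.log (Real.log y))) :=
      (mul_le_mul_of_nonneg_right h0' hphi0.le).trans hβ2
    have h2 : C * M * (Real.log (Real.log y)) ^ 2 /
        ((Real.log y) ^ 2 * Real.log (Real.log (Real.log y))) ≤
        C * t * s ^ 2 / ((3 / 4 * u) ^ 2 * (3 / 4 * w)) := by
      apply div_le_div₀ (by positivity) _ (by positivity) _
      · gcongr
      · gcongr
    have h3 : C * t * s ^ 2 / ((3 / 4 * u) ^ 2 * (3 / 4 * w)) =
        (64 / 27 * C * c' * l) * ((Nat.totient d : ℝ) / d) := by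
      rw [ht, hFF]
      field_simp
      norm_num
    have h4 : (U.card : ℝ) ≤ 64 / 27 * C * c' * l := by
      rw [h3] at h2
      exact le_of_mul_le_mul_right (h1.trans h2) hphi0
    refine h4.trans ?_
    apply mul_le_mul_of_nonneg_right _ hl0.le
    have : 0 ≤ C * c' := by positivity
    linarith
  -- the residue class modulo the small primes
  obtain ⟨b0, hb0, hb0'⟩ := crt_small S hSp (fun p => b p * d)
  rw [← hP] at hb0
  -- residues modulo the large primes
  have hinv : ∀ p : ℕ, p.Prime → l ^ 2 < p → ∃ u : ℤ, (p : ℤ) ∣ P * u - 1 := by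
    intro p hp hpl
    have h1 : Nat.Coprime P p := by
      rw [hP]
      apply Nat.Coprime.prod_left
      intro r hr
      rw [Nat.coprime_primes (hSp r hr) hp]
      rintro rfl
      have h2 : (r : ℝ) ≤ l / 10 := (by exact_mod_cast hSle r hr : (r : ℝ) ≤ Ny).trans hNyle
      nlinarith
    obtain ⟨u, w, huw⟩ := Nat.isCoprime_iff_coprime.2 h1
    refine ⟨u, -w, ?_⟩
    linear_combination huw
  choose! inv hinv using hinv
  set res : ℕ → {k // k ∈ U} → ℤ := fun p k => -((b0 : ℤ) + (k.1 : ℤ) * d) * inv p with hres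
  -- the set of candidates
  set m0 : ℤ := (d / (2 * P) : ℕ) + 1 with hm0
  set Ln : ℕ := d / P - (d / (2 * P) + 1) with hLn
  set 𝒜 := (Finset.Ico m0 (m0 + Ln)).filter (fun x => IsCoprime ((b0 : ℤ) + P * x) (d : ℤ)) with h𝒜
  -- size of the interval
  have hPr0 : (0 : ℝ) < P := by exact_mod_cast hPpos
  have hdP : (d : ℝ) ^ (43 / 50 : ℝ) ≤ d / P := by
    rw [le_div_iff₀ hPr0]
    calc (d : ℝ) ^ (43 / 50 : ℝ) * P ≤ (d : ℝ) ^ (43 / 50 : ℝ) * (d : ℝ) ^ (7 / 50 : ℝ) :=
          mul_le_mul_of_nonneg_left hPr (by positivity)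
      _ = d := by rw [← Real.rpow_add hdpos]; norm_num
  have hbig : ∀ e : ℝ, 1 / 50 ≤ e → 16 ≤ (d : ℝ) ^ e := by
    intro e he
    rw [Real.rpow_def_of_pos hdpos]
    have h1 : (8 : ℝ) ≤ l * e := by nlinarith
    have h2 := Real.exp_le_exp.2 h1
    have h3 : (16 : ℝ) ≤ Real.exp 8 := by
      have h4 : Real.exp 8 = Real.exp 1 ^ 8 := by
        rw [← Real.exp_nat_mul]; norm_num
      have h5 := Real.exp_one_gt_d9
      rw [h4]
      calc (16 : ℝ) ≤ 2 ^ 8 := by norm_num
        _ ≤ Real.exp 1 ^ 8 := pow_le_pow_left₀ (by norm_num) (by linarith) 8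
    exact h3.trans h2
  have hLr : (d : ℝ) / P / 4 ≤ Ln := by
    have h1 : (d : ℝ) / P < (d / P : ℕ) + 1 := by
      rw [div_lt_iff₀ hPr0]
      have : d < (d / P + 1) * P := by
        have := Nat.lt_mul_div_succ d hPpos
        linarith [this]
      exact_mod_cast this
    have h2 : ((d / (2 * P) : ℕ) : ℝ) ≤ (d : ℝ) / P / 2 := by
      have := @Nat.cast_div_le ℝ _ _ _ d (2 * P)
      refine this.trans ?_
      push_cast
      apply le_of_eq
      field_simp
    have h3 : (16 : ℝ) ≤ d / P := (hbig (43 / 50) (by norm_num)).trans hdP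
    have h4 : ((d / P : ℕ) : ℝ) ≤ Ln + ((d / (2 * P) : ℕ) + 1 : ℝ) := by
      have : d / P ≤ Ln + (d / (2 * P) + 1) := by omega
      exact_mod_cast this
    linarith
  have hN : (d : ℝ) ^ (1 / 2 : ℝ) ≤ Ln * ((Nat.totient d : ℕ) : ℝ) / d := by
    have h1 : (d : ℝ) ^ (-(1 / 20) : ℝ) ≤ (Nat.totient d : ℝ) / d := by
      rw [totient_div d hd0]
      refine le_trans ?_ (prod_ge_half d)
      rw [Real.rpow_neg hdpos.le, one_div_pow, ← one_div]
      exact one_div_le_one_div_of_le (by positivity) hom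
    have h2 : (d : ℝ) ^ (43 / 50 : ℝ) / 4 ≤ Ln := by
      have : (d : ℝ) ^ (43 / 50 : ℝ) / 4 ≤ d / P / 4 := by linarith
      linarith
    have h3 : (4 : ℝ) ≤ (d : ℝ) ^ (31 / 100 : ℝ) := by
      have := hbig (31 / 100) (by norm_num)
      linarith
    have h4 : (d : ℝ) ^ (43 / 50 : ℝ) * (d : ℝ) ^ (-(1 / 20) : ℝ) =
        (d : ℝ) ^ (31 / 100 : ℝ) * (d : ℝ) ^ (1 / 2 : ℝ) := by
      rw [← Real.rpow_add hdpos, ← Real.rpow_add hdpos]
      norm_num
    have h5 : (0 : ℝ) < (d : ℝ) ^ (1 / 2 : ℝ) := by positivity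
    calc (d : ℝ) ^ (1 / 2 : ℝ) ≤ (d : ℝ) ^ (31 / 100 : ℝ) * (d : ℝ) ^ (1 / 2 : ℝ) / 4 := by
          nlinarith
      _ = (d : ℝ) ^ (43 / 50 : ℝ) / 4 * (d : ℝ) ^ (-(1 / 20) : ℝ) := by
          rw [← h4]; ring
      _ ≤ Ln * ((Nat.totient d : ℝ) / d) :=
          mul_le_mul h2 h1 (by positivity) (by positivity)
      _ = _ := by ring
  have hErr : (2 : ℝ) ^ pf.card ≤ (d : ℝ) ^ (1 / 10 : ℝ) :=
    hom.trans (Real.rpow_le_rpow_of_exponent_le hdr1 (by norm_num))
  -- apply the covering theorem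
  obtain ⟨x, hxA, hx⟩ := hcov d hX0 pf (card_primeFactors_le d hd0) {k // k ∈ U}
    (by rw [Fintype.card_coe]; exact hUcard) res (by
      intro p hp hpl _ hpB k k' hkk' hdvd
      have hpd : ¬ p ∣ d := fun h => hpB (Nat.mem_primeFactors.2 ⟨hp, h, hd0⟩)
      have h1 := hinv p hp hpl
      have hpi : Prime (p : ℤ) := Nat.prime_iff_prime_int.1 hp
      have h2 : res p k - res p k' = -(((k.1 : ℤ) - k'.1) * d * inv p) := by
        simp only [hres]; ring
      rw [h2, dvd_neg] at hdvd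
      rcases hpi.dvd_or_dvd hdvd with h3 | h3
      · rcases hpi.dvd_or_dvd h3 with h4 | h4
        · -- p | k - k'
          have hk := (Finset.mem_range.1 (Finset.mem_filter.1 k.2).1)
          have hk' := (Finset.mem_range.1 (Finset.mem_filter.1 k'.2).1)
          have hMp : M < p := by
            have : (M : ℝ) < p := (hMt.trans htl).trans_lt hpl
            exact_mod_cast this
          have h5 : ((k.1 : ℤ) - k'.1) = 0 := by
            apply Int.eq_zero_of_abs_lt_dvd h4
            rw [abs_lt]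
            constructor <;> omega
          apply hkk'
          apply Subtype.ext
          omega
        · exact hpd (by exact_mod_cast h4)
      · -- p | inv p
        have h6 : (p : ℤ) ∣ 1 := by
          have h7 : (p : ℤ) ∣ P * inv p := Dvd.dvd.mul_left h3 _
          have := dvd_sub h7 h1
          simpa using this
        exact hpi.not_isUnit (isUnit_of_dvd_one h6))
    𝒜 (Ln * ((Nat.totient d : ℕ) : ℝ) / d) (2 ^ pf.card) hN (by positivity) hErr (by
      intro q hq _ hqp r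
      have hqpos : 0 < q := Nat.pos_of_ne_zero hq.ne_zero
      have hqd : Nat.Coprime q d := by
        rw [Nat.coprime_iff_gcd_eq_one]
        by_contra hg
        obtain ⟨p, hp, hpg⟩ := Nat.exists_prime_and_dvd hg
        have h1 : p ∣ q := hpg.trans (Nat.gcd_dvd_left _ _)
        have h2 : p ∣ d := hpg.trans (Nat.gcd_dvd_right _ _)
        exact (hqp p (Nat.mem_primeFactors.2 ⟨hp, h1, hqpos.ne'⟩)).2
          (Nat.mem_primeFactors.2 ⟨hp, h2, hd0⟩)
      exact count_main d P q hd0 hqpos hPd hqd b0 m0 r Ln)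
  rw [h𝒜, Finset.mem_filter, Finset.mem_Ico] at hxA
  obtain ⟨⟨hx1, hx2⟩, hxc⟩ := hxA
  -- the residue class
  have hx0 : 0 ≤ x := by
    have : (0 : ℤ) ≤ (d / (2 * P) : ℕ) := by positivity
    omega
  obtain ⟨xn, rfl⟩ := Int.eq_ofNat_of_zero_le hx0
  set a := b0 + P * xn with ha
  have haz : ((a : ℕ) : ℤ) = (b0 : ℤ) + P * (xn : ℤ) := by rw [ha]; push_cast; ring
  have hxlow : d / (2 * P) + 1 ≤ xn := by
    have : m0 ≤ (xn : ℤ) := hx1
    rw [hm0] at this
    exact_mod_cast this
  have hxup : xn < d / P := by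
    have h1 : (xn : ℤ) < m0 + Ln := hx2
    rw [hm0] at h1
    have h2 : xn < d / (2 * P) + 1 + Ln := by exact_mod_cast h1
    omega
  have had : a < d := by
    calc a < P + P * xn := by rw [ha]; omega
      _ = P * (xn + 1) := by ring
      _ ≤ P * (d / P) := Nat.mul_le_mul_left _ hxup
      _ ≤ d := Nat.mul_div_le d P
  have halow : (d : ℝ) / 2 ≤ a := by
    have h1 : d < 2 * P * (d / (2 * P) + 1) := Nat.lt_mul_div_succ d (by omega)
    have h2 : 2 * P * (d / (2 * P) + 1) ≤ 2 * P * xn := Nat.mul_le_mul_left _ hxlow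
    have h3 : d ≤ 2 * a := by
      rw [ha]
      nlinarith
    have h4 : (d : ℝ) ≤ 2 * a := by exact_mod_cast h3
    linarith
  have hacop : Nat.Coprime a d := by
    rw [← Nat.isCoprime_iff_coprime]
    rw [haz]
    exact hxc
  have ha1 : 1 ≤ a := by
    have : (0 : ℝ) < a := by linarith
    have : 0 < a := by exact_mod_cast this
    omega
  refine ⟨a, ha1, had, hacop, fun p hp hpa => ?_⟩
  set k := p / d with hk
  have hpk : p = a + k * d := by
    have := Nat.mod_add_div p d
    rw [hpa] at this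
    rw [hk]
    linarith [this, mul_comm (p / d) d]
  have hap : a ≤ p := by rw [hpk]; omega
  have hlr : l ≤ d := by
    have := Real.log_le_sub_one_of_pos hdpos
    linarith
  -- `M ≤ k`
  have hMk : M ≤ k := by
    by_contra hlt
    push Not at hlt
    by_cases hkU : k ∈ U
    · obtain ⟨r, hr, hrl, hrX, hrB, hrd⟩ := hx ⟨k, hkU⟩
      have h1 := hinv r hr hrl
      have h2 : (r : ℤ) ∣ (p : ℤ) := by
        have e : (p : ℤ) = P * ((xn : ℤ) - res r ⟨k, hkU⟩) -
            ((b0 : ℤ) + k * d) * (P * inv r - 1) := by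
          rw [hpk]
          simp only [hres]
          push_cast
          rw [haz]
          ring
        rw [e]
        exact dvd_sub (Dvd.dvd.mul_left hrd _) (Dvd.dvd.mul_left h1 _)
      have h3 : r ∣ p := by exact_mod_cast h2
      have h4 : r = p := (Nat.prime_dvd_prime_iff_eq hr hp).1 h3
      have h5 : (d : ℝ) / 2 ≤ (d : ℝ) ^ (1 / 10 : ℝ) := by
        refine halow.trans (le_trans ?_ hrX)
        rw [h4]
        exact_mod_cast hap
      have h6 : (d : ℝ) = (d : ℝ) ^ (9 / 10 : ℝ) * (d : ℝ) ^ (1 / 10 : ℝ) := by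
        rw [← Real.rpow_add hdpos]; norm_num
      have h7 := hbig (9 / 10) (by norm_num)
      have h8 : (0 : ℝ) < (d : ℝ) ^ (1 / 10 : ℝ) := by positivity
      have h9 : 16 * (d : ℝ) ^ (1 / 10 : ℝ) ≤ d := by
        calc 16 * (d : ℝ) ^ (1 / 10 : ℝ) ≤ (d : ℝ) ^ (9 / 10 : ℝ) * (d : ℝ) ^ (1 / 10 : ℝ) :=
              mul_le_mul_of_nonneg_right h7 h8.le
          _ = d := h6.symm
      linarith
    · have h1 : ∃ r ∈ S, k ≡ b r [MOD r] := by
        by_contra hcon
        push Not at hcon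
        exact hkU (Finset.mem_filter.2 ⟨Finset.mem_range.2 hlt, hcon⟩)
      obtain ⟨r, hr, hkr⟩ := h1
      have h2 : r ∣ b0 + b r * d := hb0' r hr
      have h3 : r ∣ P := Finset.dvd_prod_of_mem _ hr
      have h4 : p ≡ 0 [MOD r] := by
        rw [hpk, ha]
        have e1 : b0 + P * xn + k * d ≡ b0 + 0 + b r * d [MOD r] := by
          apply Nat.ModEq.add
          · apply Nat.ModEq.add_left
            exact Nat.modEq_zero_iff_dvd.2 (Dvd.dvd.mul_right h3 _)
          · exact hkr.mul_right d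
        refine e1.trans ?_
        rw [add_zero]
        exact Nat.modEq_zero_iff_dvd.2 h2
      have h5 : r ∣ p := Nat.modEq_zero_iff_dvd.1 h4
      have h6 : r = p := (Nat.prime_dvd_prime_iff_eq (hSp r hr) hp).1 h5
      have h7 : (p : ℝ) ≤ l / 10 := by
        rw [← h6]
        exact (by exact_mod_cast hSle r hr : (r : ℝ) ≤ Ny).trans hNyle
      have h8 : (a : ℝ) ≤ p := by exact_mod_cast hap
      linarith
  -- conclusion
  have hpr : (p : ℝ) = a + k * d := by
    have : ((p : ℕ) : ℝ) = ((a + k * d : ℕ) : ℝ) := by rw [← hpk]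
    rw [this]; push_cast; ring
  have hkM : (M : ℝ) ≤ k := by exact_mod_cast hMk
  have htM : t < M + 1 := Nat.lt_floor_add_one t
  have hM0 : (0 : ℝ) ≤ M := by positivity
  have e1 : c' / 8 * (Nat.totient d : ℝ) * FF l = t / 8 * d := by
    rw [ht]; field_simp
  rw [e1, hpr]
  have h9 : t / 8 < 1 / 2 + M := by linarith
  nlinarith

end Pool.Agent.H378R2.RM
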