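import Mathlib
import Pool.Agent.H378R2.RM.SurvM
import Pool.Agent.H378R2.RM.Ev
import Pool.Agent.H378R2.RM.RecMod
import Pool.Agent.H378R2.RM.ApArith

set_option autoImplicit false
set_option maxHeartbeats 4000000

namespace Pool.Agent.H378R2.RM

open Finset Filter Pool.Agent.H256R2.SC Pool.Agent.H256R2.SC.LG

open scoped Classical

/-- elementary estimates for large `l` -/
theorem ev_ap (κ η K y₀ : ℝ) (hκ : 0 < κ) (hη : 0 < η) : ∃ l₀ : ℝ, ∀ l : ℝ, l₀ ≤ l →
    400 ≤ κ * l ∧ 400 ≤ l ∧ y₀ ≤ κ * l ∧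
    (Real.log l) ^ 2 ≤ η * l ∧ 100 ≤ Real.log l ∧ 100 ≤ Real.log (Real.log l) ∧
    1 ≤ Real.log (Real.log (Real.log l)) ∧
    3 / 4 * Real.log l ≤ Real.log (κ * l) ∧
    3 / 4 * Real.log (Real.log (Real.log l)) ≤ Real.log (Real.log (Real.log (κ * l))) ∧
    K * (Real.log (Real.log l)) ^ 2 ≤ Real.log l ∧
    Real.log (Real.log (Real.log l)) / (Real.log (Real.log l)) ^ 2 ≤ η ∧ K ≤ Real.log l := by
  have hlog := Real.tendsto_log_atTop
  have hll : Tendsto (fun l : ℝ => Real.log (Real.log l)) atTop atTop := hlog.comp hlog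
  have hlll : Tendsto (fun l : ℝ => Real.log (Real.log (Real.log l))) atTop atTop := hlog.comp hll
  have hκl : Tendsto (fun l : ℝ => κ * l) atTop atTop := tendsto_id.const_mul_atTop hκ
  have hK : ∀ᶠ l : ℝ in atTop, K * (Real.log (Real.log l)) ^ 2 ≤ Real.log l := by
    have h1 := Real.tendsto_exp_div_pow_atTop 2
    have h2 := (h1.eventually_ge_atTop K).and (eventually_ge_atTop (1 : ℝ))
    have h3 := (hll.eventually h2).and (hlog.eventually_ge_atTop 1)
    filter_upwards [h3] with l hl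
    obtain ⟨⟨ha, hb⟩, hc⟩ := hl
    rw [Real.exp_log (by linarith)] at ha
    rw [le_div_iff₀ (by positivity)] at ha
    exact ha
  have hsq : ∀ᶠ l : ℝ in atTop, (Real.log l) ^ 2 ≤ η * l := by
    have h1 := Real.tendsto_exp_div_pow_atTop 2
    have h2 := (h1.eventually_ge_atTop (1 / η)).and (eventually_ge_atTop (1 : ℝ))
    have h3 := (hlog.eventually h2).and (eventually_ge_atTop (1 : ℝ))
    filter_upwards [h3] with l hl
    obtain ⟨⟨ha, hb⟩, hc⟩ := hl
    rw [Real.exp_log (by linarith)] at ha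
    rw [le_div_iff₀ (by positivity)] at ha
    have h4 : η * (1 / η * (Real.log l) ^ 2) ≤ η * l := mul_le_mul_of_nonneg_left ha hη.le
    have h5 : η * (1 / η * (Real.log l) ^ 2) = (Real.log l) ^ 2 := by field_simp
    linarith
  have hall := (((((hκl.eventually_ge_atTop (400 : ℝ)).and (hκl.eventually_ge_atTop y₀)).and
    ((hlog.eventually_ge_atTop (max (max 100 K) (-4 * Real.log κ))).and
      (hll.eventually_ge_atTop (max 100 (1 / η))))).and
    (hlll.eventually_ge_atTop 4)).and hK).and (hsq.and (eventually_ge_atTop (400 : ℝ)))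
  obtain ⟨l₀, h⟩ := eventually_atTop.1 hall
  refine ⟨l₀, fun l hl => ?_⟩
  obtain ⟨⟨⟨⟨⟨h1, h2⟩, h3, h4⟩, h5⟩, h6⟩, h7, h8⟩ := h l hl
  have hl0 : 0 < l := by linarith
  have h3a : 100 ≤ Real.log l := ((le_max_left _ _).trans (le_max_left _ _)).trans h3
  have h3c : K ≤ Real.log l := ((le_max_right _ _).trans (le_max_left _ _)).trans h3
  have h3b : -4 * Real.log κ ≤ Real.log l := (le_max_right _ _).trans h3
  have h4a : 100 ≤ Real.log (Real.log l) := (le_max_left _ _).trans h4
  have h4b : 1 / η ≤ Real.log (Real.log l) := (le_max_right _ _).trans h4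
  set u := Real.log l with hu
  set s := Real.log u with hs
  set w := Real.log s with hw
  have hu0 : 0 < u := by linarith
  have hs0 : 0 < s := by linarith
  have h34 : -(1 : ℝ) ≤ Real.log (3 / 4) := by
    rw [Real.le_log_iff_exp_le (by norm_num)]
    have h8 := Real.exp_one_gt_d9
    rw [Real.exp_neg]
    calc (Real.exp 1)⁻¹ ≤ (2 : ℝ)⁻¹ := inv_anti₀ (by norm_num) (by linarith)
      _ ≤ 3 / 4 := by norm_num
  have ha : 3 / 4 * u ≤ Real.log (κ * l) := by
    rw [Real.log_mul hκ.ne' hl0.ne', ← hu]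
    linarith
  have hb : 3 / 4 * s ≤ Real.log (Real.log (κ * l)) := by
    have h7 : Real.log (3 / 4 * u) ≤ Real.log (Real.log (κ * l)) :=
      Real.log_le_log (by positivity) ha
    rw [Real.log_mul (by norm_num) hu0.ne', ← hs] at h7
    linarith
  have hc : 3 / 4 * w ≤ Real.log (Real.log (Real.log (κ * l))) := by
    have h7 : Real.log (3 / 4 * s) ≤ Real.log (Real.log (Real.log (κ * l))) :=
      Real.log_le_log (by positivity) hb
    rw [Real.log_mul (by norm_num) hs0.ne', ← hw] at h7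
    linarith
  have hws : w ≤ s := by
    have := Real.log_le_sub_one_of_pos hs0
    linarith
  refine ⟨h1, h8, h2, h7, h3a, h4a, by linarith, ha, hc, h6, ?_, h3c⟩
  rw [div_le_iff₀ (by positivity)]
  rw [div_le_iff₀ hη] at h4b
  nlinarith

/-- lower bound for `φ(d)/d`, uniformly for `d` up to a bound -/
theorem tot_unif : ∃ c : ℝ, 0 < c ∧ ∃ D₀ : ℝ, ∀ l : ℝ, D₀ ≤ l → ∀ d : ℕ, 0 < d → Real.log d ≤ l →
    c / Real.log l ≤ ∏ p ∈ d.primeFactors, (1 - 1 / (p : ℝ)) := by
  obtain ⟨c₃, hc₃, D₁, htot⟩ := tot_low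
  set D := max D₁ (Real.exp 1) with hD
  have hD1 : Real.exp 1 ≤ D := le_max_right _ _
  have he := Real.exp_one_gt_d9
  refine ⟨min c₃ (Real.exp (-D)), lt_min hc₃ (Real.exp_pos _), D, fun l hl d hd hdl => ?_⟩
  have hlogl : 1 ≤ Real.log l := by
    rw [Real.le_log_iff_exp_le (by linarith)]; linarith
  by_cases h : D ≤ Real.log d
  · have h1 := htot d ((le_max_left _ _).trans h)
    refine le_trans ?_ h1
    have h2 : 1 ≤ Real.log (Real.log d) := by
      rw [Real.le_log_iff_exp_le (by linarith)]; linarith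
    have h3 : Real.log (Real.log d) ≤ Real.log l := Real.log_le_log (by linarith) hdl
    calc min c₃ (Real.exp (-D)) / Real.log l ≤ c₃ / Real.log l := by
          apply div_le_div_of_nonneg_right (min_le_left _ _) (by linarith)
      _ ≤ _ := div_le_div_of_nonneg_left hc₃.le (by linarith) h3
  · push Not at h
    have hdr : (0 : ℝ) < d := by exact_mod_cast hd
    rw [← Pool.Agent.H256R2.SC.G3.totient_div d hd.ne']
    have h1 : (1 : ℝ) ≤ Nat.totient d := by exact_mod_cast Nat.totient_pos.2 hd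
    have h2 : (d : ℝ) ≤ Real.exp D := by
      rw [← Real.log_le_iff_le_exp hdr]; exact h.le
    calc min c₃ (Real.exp (-D)) / Real.log l ≤ Real.exp (-D) / 1 := by
          apply div_le_div₀ (Real.exp_pos _).le (min_le_right _ _) one_pos hlogl
      _ = 1 / Real.exp D := by rw [Real.exp_neg]; simp
      _ ≤ 1 / d := one_div_le_one_div_of_le hdr h2
      _ ≤ _ := div_le_div_of_nonneg_right h1 hdr.le

/-- the number of large prime factors -/
theorem card_large (d : ℕ) (hd : 0 < d) (z : ℝ) (hz : 1 < z) :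
    (((d.primeFactors.filter (fun p : ℕ => z < (p : ℝ))).card : ℕ) : ℝ) * Real.log z ≤ Real.log d := by
  have hdr : (0 : ℝ) < d := by exact_mod_cast hd
  set T := d.primeFactors.filter (fun p : ℕ => z < (p : ℝ)) with hT
  have h1 : ∏ p ∈ T, p ∣ d := by
    refine (Finset.prod_dvd_prod_of_subset _ _ _ (filter_subset _ _)).trans (Nat.prod_primeFactors_dvd d)
  have h2 : ∏ p ∈ T, p ≤ d := Nat.le_of_dvd hd h1
  have h3 : z ^ T.card ≤ d := by
    calc z ^ T.card = ∏ _p ∈ T, z := by rw [prod_const]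
      _ ≤ ∏ p ∈ T, (p : ℝ) := by
        apply Finset.prod_le_prod
        · intro p _; linarith
        · intro p hp; exact (mem_filter.1 hp).2.le
      _ = ((∏ p ∈ T, p : ℕ) : ℝ) := by push_cast; rfl
      _ ≤ d := by exact_mod_cast h2
  have h4 := Real.log_le_log (by positivity) h3
  rwa [Real.log_pow] at h4

end Pool.Agent.H378R2.RM
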