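import Mathlib
import Pool.Agent.H378R2.RM.ApAna
import Pool.Agent.H256R2.SC.V

set_option autoImplicit false
set_option maxHeartbeats 4000000

namespace Pool.Agent.H378R2.RM

open Finset Filter Pool.Agent.H256R2.SC Pool.Agent.H256R2.SC.LG

open scoped Classical

theorem xpow (X l y : ℝ) (hXpos : 0 < X) (hl : l = Real.log X) (hl400 : 400 ≤ l) (hy0 : 0 < y)
    (hyl : y ≤ l / 10) :
    4 * (primorial ⌊y⌋₊ : ℝ) ≤ X ^ (1 / 2 : ℝ) ∧ 2 ≤ X ^ (1 / 10 : ℝ) ∧ X ^ (1 / 10 : ℝ) ≤ X / 4 ∧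
      y ≤ X / 4 ∧ ∀ n t : ℝ, n ≤ X / 2 + primorial ⌊y⌋₊ → t ≤ l ^ 2 → n + t ≤ X := by
  -- powers of X
  have hXexp : X = Real.exp l := by rw [hl]; exact (Real.exp_log hXpos).symm
  have hroot : ∀ a : ℝ, X ^ a = Real.exp (l * a) := fun a => by rw [hl]; exact Real.rpow_def_of_pos hXpos a
  have e2 : (4 : ℝ) ≤ Real.exp 2 := by
    have := Real.add_one_le_exp (1 : ℝ)
    calc (4 : ℝ) = 2 * 2 := by norm_num
      _ ≤ Real.exp 1 * Real.exp 1 := by gcongr <;> linarith
      _ = Real.exp 2 := by rw [← Real.exp_add]; norm_num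
  have hexp4 : ∀ a b : ℝ, a + 2 ≤ b → 4 * Real.exp a ≤ Real.exp b := by
    intro a b hab
    calc 4 * Real.exp a ≤ Real.exp 2 * Real.exp a := by gcongr
      _ = Real.exp (2 + a) := by rw [← Real.exp_add]
      _ ≤ Real.exp b := Real.exp_le_exp.2 (by linarith)
  have hP : (primorial ⌊y⌋₊ : ℝ) ≤ Real.exp (l / 5) := by
    have h1 : (primorial ⌊y⌋₊ : ℝ) ≤ 4 ^ ⌊y⌋₊ := by exact_mod_cast primorial_le_four_pow _
    refine h1.trans ?_
    calc (4 : ℝ) ^ ⌊y⌋₊ ≤ (Real.exp 2) ^ ⌊y⌋₊ := by gcongr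
      _ = Real.exp (⌊y⌋₊ * 2) := by rw [← Real.exp_nat_mul]
      _ ≤ Real.exp (l / 5) := by
        apply Real.exp_le_exp.2
        have := Nat.floor_le hy0.le
        linarith
  have hquad : l ^ 2 ≤ X / 8 := by
    have h1 : l / 4 ≤ Real.exp (l / 4) := by
      have := Real.add_one_le_exp (l / 4)
      linarith
    have h2 : (l / 4) ^ 2 ≤ Real.exp (l / 2) := by
      calc (l / 4) ^ 2 ≤ (Real.exp (l / 4)) ^ 2 := by gcongr
        _ = Real.exp (l / 2) := by
          rw [sq, ← Real.exp_add]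
          congr 1
          ring
    have h3 : 128 * Real.exp (l / 2) ≤ X := by
      have a1 := hexp4 (l / 2) (l / 2 + 2) le_rfl
      have a2 := hexp4 (l / 2 + 2) (l / 2 + 4) (by linarith)
      have a3 := hexp4 (l / 2 + 4) (l / 2 + 6) (by linarith)
      have a4 := hexp4 (l / 2 + 6) l (by linarith)
      rw [← hXexp] at a4
      have a5 := Real.exp_pos (l / 2)
      linarith
    nlinarith
  refine ⟨?_, ?_, ?_, ?_, ?_⟩
  · calc 4 * (primorial ⌊y⌋₊ : ℝ) ≤ 4 * Real.exp (l / 5) := by gcongr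
        _ ≤ Real.exp (l * (1 / 2)) := hexp4 _ _ (by linarith)
        _ = X ^ (1 / 2 : ℝ) := (hroot _).symm
  · rw [hroot]
    have h1 : Real.exp 2 ≤ Real.exp (l * (1 / 10)) := Real.exp_le_exp.2 (by linarith)
    linarith
  · rw [hroot]
    have h1 := hexp4 (l * (1 / 10)) l (by linarith)
    rw [← hXexp] at h1
    linarith
  · nlinarith
  · intro n t hn ht
    have h2 := hexp4 (l / 5) l (by linarith)
    rw [← hXexp] at h2
    linarith

/-- The analytic part.  `lx = log x`, `l = log X` with `X = x/d`. -/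
theorem ap_core (hcov : CovStmt) (δ A : ℝ) (hδ : 0 < δ) (hδ1 : δ < 1) (hA : 0 ≤ A) :
    ∃ c : ℝ, 0 < c ∧ ∃ x₀ : ℝ, ∀ x : ℝ, x₀ ≤ x → ∀ d : ℕ, 1 ≤ d → (d : ℝ) ≤ x ^ (1 - δ) →
    (∑ p ∈ d.primeFactors with Real.exp (Real.log (Real.log x) * Real.log (Real.log (Real.log (Real.log x))) /
      (20 * Real.log (Real.log (Real.log x)))) < ((p : ℕ) : ℝ), 1 / ((p : ℕ) : ℝ)) ≤ A / Real.log (Real.log x) →
    ∀ a : ℕ, ∃ n : ℕ, x / 4 < d * n ∧ (d : ℝ) * n + c * (Nat.totient d : ℝ) * FF (Real.log x) ≤ x ∧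
      ∀ k : ℕ, 1 ≤ k → (d : ℝ) * k ≤ c * (Nat.totient d : ℝ) * FF (Real.log x) →
        ¬ (a + d * (n + k)).Prime := by
  obtain ⟨c₁, hc₁, X₀, hcov⟩ := hcov
  obtain ⟨C, hC0, y₀, hsurv⟩ := survE A hA
  obtain ⟨c₃, hc₃, D₀, htot⟩ := tot_unif
  set c' : ℝ := min 1 (c₁ * δ / (8 * C)) with hc'
  have hc'0 : 0 < c' := by rw [hc']; exact lt_min one_pos (by positivity)
  have hc'1 : c' ≤ 1 := min_le_left _ _
  have hc'2 : 8 * C * c' ≤ c₁ * δ := by
    have h1 : c' ≤ c₁ * δ / (8 * C) := min_le_right _ _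
    rw [le_div_iff₀ (by positivity)] at h1
    linarith
  set κ : ℝ := δ / 10 with hκ
  have hκ0 : 0 < κ := by positivity
  set η : ℝ := min (δ ^ 2 / 100) (δ / 400) with hη
  have hη0 : 0 < η := lt_min (by positivity) (by positivity)
  have hη1 : η ≤ δ ^ 2 / 100 := min_le_left _ _
  have hη2 : η ≤ δ / 400 := min_le_right _ _
  obtain ⟨l₀, hev⟩ := ev_ap κ η (max (1 / (c' * c₃)) (1 / δ)) y₀ hκ0 hη0
  set Lx : ℝ := max (max (l₀) (D₀)) (max (1 / δ * Real.log (max X₀ 1)) (400 / δ)) with hLx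
  refine ⟨c', hc'0, Real.exp Lx, fun x hx d hd hdx hcond a => ?_⟩
  have hxpos : 0 < x := (Real.exp_pos _).trans_le hx
  have hlx : Lx ≤ Real.log x := by rw [Real.le_log_iff_exp_le hxpos]; exact hx
  have hl1 : l₀ ≤ Real.log x := ((le_max_left _ _).trans (le_max_left _ _)).trans hlx
  have hl2 : D₀ ≤ Real.log x := ((le_max_right _ _).trans (le_max_left _ _)).trans hlx
  have hl3 : 1 / δ * Real.log (max X₀ 1) ≤ Real.log x :=
    ((le_max_left _ _).trans (le_max_right _ _)).trans hlx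
  have hl4 : 400 / δ ≤ Real.log x :=
    ((le_max_right _ _).trans (le_max_right _ _)).trans hlx
  obtain ⟨e400, e400', ey0, esq, eu, es, ew, ea, eb, eK, eq, eK'⟩ := hev (Real.log x) hl1
  have hdr : (0 : ℝ) < d := by exact_mod_cast (by omega : 0 < d)
  have hd0 : 0 < d := by omega
  set lx := Real.log x with hlxd
  set u := Real.log lx with hu
  set s := Real.log u with hs
  set w := Real.log s with hw
  have hlx0 : 0 < lx := by linarith
  have hu0 : 0 < u := by linarith
  have hs0 : 0 < s := by linarith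
  have hw0 : 0 < w := by linarith
  have hdl : Real.log d ≤ (1 - δ) * lx := by
    have := Real.log_le_log hdr hdx
    rwa [Real.log_rpow hxpos] at this
  have hdl' : Real.log d ≤ lx := by nlinarith
  have htd := htot lx hl2 d hd0 hdl'
  -- `X = x / d`
  set X : ℝ := x / d with hX
  have hXpos : 0 < X := by positivity
  have hlX : Real.log X = lx - Real.log d := by
    rw [hX, Real.log_div hxpos.ne' hdr.ne']
  have hlogd0 : 0 ≤ Real.log d := Real.log_nonneg (by exact_mod_cast hd)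
  set l := Real.log X with hl
  have hllx : l ≤ lx := by linarith
  have hδl : δ * lx ≤ l := by linarith
  have hl400 : 400 ≤ l := by
    rw [div_le_iff₀ hδ] at hl4
    linarith
  have hX₀ : X₀ ≤ X := by
    have h1 : Real.log (max X₀ 1) ≤ l := by
      rw [div_mul_eq_mul_div, one_mul, div_le_iff₀ hδ] at hl3
      linarith
    have h2 : max X₀ 1 ≤ X := by
      rwa [Real.log_le_log_iff (by positivity) hXpos] at h1
    exact (le_max_left _ _).trans h2
  have hX1 : 1 ≤ X := by
    have : Real.exp 0 ≤ Real.exp l := Real.exp_le_exp.2 (by linarith)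
    rwa [Real.exp_zero, hl, Real.exp_log hXpos] at this
  -- `y`
  set y : ℝ := κ * lx with hy
  have hy0 : 0 < y := by positivity
  have hyl : y ≤ l / 10 := by rw [hy, hκ]; linarith
  have hlyu : Real.log y ≤ u := Real.log_le_log hy0 (by
    rw [hy]
    have : κ ≤ 1 := by rw [hκ]; linarith
    nlinarith)
  have hly0 : 0 < Real.log y := lt_of_lt_of_le (by linarith) ea
  have hlly : Real.log (Real.log y) ≤ s := Real.log_le_log hly0 hlyu
  have hlly0 : 0 < Real.log (Real.log y) := Real.log_pos (by linarith)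
  -- number of terms
  have hFF : FF lx = lx * u ^ 2 * (w / s ^ 2) := by
    unfold FF
    rw [← hu, ← hs, ← hw]; ring
  have hF0 : 0 < FF lx := by rw [hFF]; positivity
  set t : ℝ := c' * (Nat.totient d : ℝ) / d * FF lx with ht
  set M := ⌊t⌋₊ with hM
  have ht0 : 0 ≤ t := by rw [ht]; positivity
  have hMt : (M : ℝ) ≤ t := Nat.floor_le ht0
  have hphi1 : (Nat.totient d : ℝ) / d ≤ 1 := by
    rw [div_le_one hdr]
    exact_mod_cast Nat.totient_le d
  have hphi0 : 0 < (Nat.totient d : ℝ) / d := by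
    have : 0 < Nat.totient d := Nat.totient_pos.2 hd0
    positivity
  have htF : t ≤ FF lx := by
    have e : t = c' * ((Nat.totient d : ℝ) / d) * FF lx := by rw [ht]; ring
    rw [e]
    have h1 : c' * ((Nat.totient d : ℝ) / d) ≤ 1 := by nlinarith
    nlinarith
  have hFl : FF lx ≤ lx * u ^ 2 * η := by
    rw [hFF]
    apply mul_le_mul_of_nonneg_left eq (by positivity)
  have htl : t ≤ l ^ 2 := by
    have h1 : lx * u ^ 2 * η ≤ lx * (η * lx) * 1 := by
      have h2 : lx * u ^ 2 ≤ lx * (η * lx) := mul_le_mul_of_nonneg_left esq hlx0.le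
      have h3 : η ≤ 1 := by nlinarith
      exact mul_le_mul h2 h3 hη0.le (by positivity)
    have h2 : lx * (η * lx) * 1 ≤ (δ * lx) ^ 2 := by
      have h3 : η ≤ δ ^ 2 := by nlinarith
      have h4 := mul_le_mul_of_nonneg_right h3 (sq_nonneg lx)
      nlinarith
    have h3 : (δ * lx) ^ 2 ≤ l ^ 2 := pow_le_pow_left₀ (by positivity) hδl 2
    linarith
  have hML : (M : ℝ) ≤ y * (Real.log y) ^ 2 := by
    refine hMt.trans (htF.trans (hFl.trans ?_))
    have h1 : u ^ 2 * (9 / 16) ≤ (Real.log y) ^ 2 := by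
      calc u ^ 2 * (9 / 16) = (3 / 4 * u) ^ 2 := by ring
        _ ≤ _ := pow_le_pow_left₀ (by positivity) ea 2
    have h3 : y * (u ^ 2 * (9 / 16)) ≤ y * (Real.log y) ^ 2 :=
      mul_le_mul_of_nonneg_left h1 hy0.le
    refine le_trans ?_ h3
    have h2 : 0 ≤ lx * u ^ 2 := by positivity
    have h4 : lx * u ^ 2 * η ≤ lx * u ^ 2 * (δ / 400) := mul_le_mul_of_nonneg_left hη2 h2
    rw [hy, hκ]
    nlinarith
  have hMy : y ≤ M := by
    have h1 : t < M + 1 := Nat.lt_floor_add_one t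
    have h2 : y + 1 ≤ t := by
      have h3 : c₃ / u ≤ (Nat.totient d : ℝ) / d := by
        rw [Pool.Agent.H256R2.SC.G3.totient_div d hd0.ne']; exact htd
      have e : t = (c' * FF lx) * ((Nat.totient d : ℝ) / d) := by rw [ht]; ring
      rw [e]
      have h4 : (c' * FF lx) * (c₃ / u) ≤ (c' * FF lx) * ((Nat.totient d : ℝ) / d) :=
        mul_le_mul_of_nonneg_left h3 (by positivity)
      have h5 : (c' * FF lx) * (c₃ / u) = lx * ((c' * c₃) * (u * w / s ^ 2)) := by
        rw [hFF]; field_simp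
      have h6 : 1 / (c' * c₃) ≤ u * w / s ^ 2 := by
        rw [le_div_iff₀ (by positivity)]
        calc 1 / (c' * c₃) * s ^ 2 ≤ max (1 / (c' * c₃)) (1 / δ) * s ^ 2 := by
              apply mul_le_mul_of_nonneg_right (le_max_left _ _) (by positivity)
          _ ≤ u := eK
          _ ≤ u * w := by nlinarith
      have h7 : 1 ≤ (c' * c₃) * (u * w / s ^ 2) := by
        rw [div_le_iff₀ (by positivity)] at h6
        linarith
      have h8 : lx * 1 ≤ lx * ((c' * c₃) * (u * w / s ^ 2)) := mul_le_mul_of_nonneg_left h7 hlx0.le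
      have h9 : y + 1 ≤ lx * 1 := by
        rw [hy, hκ]
        nlinarith
      linarith
    linarith
  -- the condition on the prime factors
  set pf := d.primeFactors with hpf
  have hcond' : (∑ p ∈ pf with Real.exp (Real.log y * Real.log (Real.log (Real.log y)) /
      (10 * Real.log (Real.log y))) < ((p : ℕ) : ℝ), 1 / ((p : ℕ) : ℝ)) ≤ A / Real.log y := by
    have h1 : u * w / (20 * s) ≤ Real.log y * Real.log (Real.log (Real.log y)) /
        (10 * Real.log (Real.log y)) := by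
      rw [div_le_div_iff₀ (by positivity) (by positivity)]
      have h2 : (3 / 4 * u) * (3 / 4 * w) ≤ Real.log y * Real.log (Real.log (Real.log y)) :=
        mul_le_mul ea eb (by positivity) hly0.le
      have h3 : 0 ≤ u * w := by positivity
      calc u * w * (10 * Real.log (Real.log y)) ≤ u * w * (10 * s) := by gcongr
        _ ≤ (3 / 4 * u * (3 / 4 * w)) * (20 * s) := by nlinarith [mul_nonneg h3 hs0.le]
        _ ≤ _ := by gcongr
    have h2 : (∑ p ∈ pf with Real.exp (Real.log y * Real.log (Real.log (Real.log y)) /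
      (10 * Real.log (Real.log y))) < ((p : ℕ) : ℝ), 1 / ((p : ℕ) : ℝ)) ≤
      (∑ p ∈ pf with Real.exp (u * w / (20 * s)) < ((p : ℕ) : ℝ), 1 / ((p : ℕ) : ℝ)) := by
      apply Finset.sum_le_sum_of_subset_of_nonneg
      · intro p hp
        rw [Finset.mem_filter] at hp ⊢
        exact ⟨hp.1, (Real.exp_le_exp.2 h1).trans_lt hp.2⟩
      · intro p _ _
        positivity
    refine h2.trans (hcond.trans ?_)
    exact div_le_div_of_nonneg_left hA hly0 hlyu
  obtain ⟨b, hβ1, hβ2⟩ := hsurv y ey0 M hMy hML pf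
    (fun p hp => Nat.prime_of_mem_primeFactors hp) hcond'
  -- the number of survivors
  have hUcard : (((Finset.Icc 1 M).filter (fun k => ∀ p : ℕ, p.Prime → p ∉ pf → (p : ℝ) ≤ y →
        ¬ k ≡ b p [MOD p])).card : ℝ) ≤ c₁ * l := by
    rw [← Pool.Agent.H256R2.SC.G3.totient_div d hd0.ne'] at hβ2
    have h2 : C * M * (Real.log (Real.log y)) ^ 2 /
        ((Real.log y) ^ 2 * Real.log (Real.log (Real.log y))) ≤
        C * t * s ^ 2 / ((3 / 4 * u) ^ 2 * (3 / 4 * w)) := by
      apply div_le_div₀ (by positivity) _ (by positivity) _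
      · gcongr
      · gcongr
    have h3 : C * t * s ^ 2 / ((3 / 4 * u) ^ 2 * (3 / 4 * w)) =
        (64 / 27 * C * c' * lx) * ((Nat.totient d : ℝ) / d) := by
      rw [ht, hFF]
      field_simp
      norm_num
    rw [h3] at h2
    have h4 := le_of_mul_le_mul_right (hβ2.trans h2) hphi0
    refine h4.trans ?_
    have h5 : 0 ≤ C * c' := by positivity
    have h6 : 64 / 27 * C * c' ≤ c₁ * δ := by linarith
    calc 64 / 27 * C * c' * lx ≤ c₁ * δ * lx := mul_le_mul_of_nonneg_right h6 hlx0.le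
      _ = c₁ * (δ * lx) := by ring
      _ ≤ c₁ * l := mul_le_mul_of_nonneg_left hδl hc₁.le
  -- the number of large prime factors
  have hB : (((d.primeFactors.filter (fun p : ℕ => (Real.log X) ^ 2 < (p : ℝ))).card : ℕ) : ℝ) ≤
      2 * Real.log X := by
    have h1 := card_large d hd0 (l ^ 2) (by nlinarith)
    rw [Real.log_pow] at h1
    push_cast at h1
    have hlogl : 1 / δ ≤ 4 * Real.log l := by
      have h2 : u / 2 ≤ Real.log l := by
        have h3 : Real.log y ≤ Real.log l := Real.log_le_log hy0 (by linarith)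
        linarith
      have h3 : 1 / δ ≤ u := (le_max_right _ _).trans eK'
      linarith
    have h2 : lx ≤ l * (1 / δ) := by
      rw [mul_one_div, le_div_iff₀ hδ]; linarith
    set N : ℝ := (((d.primeFactors.filter (fun p : ℕ => (Real.log X) ^ 2 < (p : ℝ))).card : ℕ) : ℝ) with hN
    have h3 : N * (2 * Real.log l) ≤ 2 * l * (2 * Real.log l) := by
      calc N * (2 * Real.log l) ≤ Real.log d := h1
        _ ≤ lx := hdl'
        _ ≤ l * (1 / δ) := h2
        _ ≤ l * (4 * Real.log l) := mul_le_mul_of_nonneg_left hlogl (by linarith)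
        _ = _ := by ring
    have h4 : 0 < 2 * Real.log l := by
      have := Real.log_pos (by linarith : (1 : ℝ) < l)
      linarith
    exact le_of_mul_le_mul_right h3 h4
  obtain ⟨q1, q2, q3, q4, q5⟩ := xpow X l y hXpos hl hl400 hy0 hyl
  have hyl2 : y ≤ l ^ 2 := by
    have : l * 1 ≤ l * l := mul_le_mul_of_nonneg_left (by linarith) (by linarith)
    rw [sq]
    linarith
  obtain ⟨n, hn1, hn2, hn3⟩ := ap_arith (c := c₁) (X := X) (y := y) (L := M) (d := d) (a := a) (b := b)
    (hcov X hX₀) hX1 hy0.le hyl2 hd0 hB hUcard (hMt.trans htl) q1 q2 q3 q4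
  have e1 : c' * (Nat.totient d : ℝ) * FF lx = d * t := by
    rw [ht]; field_simp
  have hdX : d * X = x := by rw [hX]; field_simp
  refine ⟨n, ?_, ?_, fun k hk1 hk2 => hn3 k hk1 ?_⟩
  · calc x / 4 = d * (X / 4) := by rw [← hdX]; ring
      _ < d * n := by gcongr
  · rw [e1]
    have h1 : (n : ℝ) + t ≤ X := q5 n t hn2 htl
    calc (d : ℝ) * n + d * t = d * (n + t) := by ring
      _ ≤ d * X := by gcongr
      _ = x := hdX
  · rw [e1] at hk2
    have h1 : (k : ℝ) ≤ t := le_of_mul_le_mul_left hk2 hdr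
    rw [hM]
    exact Nat.le_floor h1

end Pool.Agent.H378R2.RM
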