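import Mathlib
import Pool.Agent.H378R2.RM.RecMod

set_option autoImplicit false

namespace Pool.Agent.H378R2.RM

theorem record_progression (A : ℝ) (hA : 0 ≤ A) :
    ∃ c : ℝ, 0 < c ∧ ∃ d₀ : ℕ, ∀ d : ℕ, d₀ ≤ d →
    (∑ p ∈ d.primeFactors with Real.exp (Real.log (Real.log d) * Real.log (Real.log (Real.log (Real.log d))) /
      (20 * Real.log (Real.log (Real.log d)))) < ((p : ℕ) : ℝ), 1 / ((p : ℕ) : ℝ)) ≤ A / Real.log (Real.log d) →
    ∃ a : ℕ, 1 ≤ a ∧ a < d ∧ Nat.Coprime a d ∧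
      ∀ p : ℕ, p.Prime → p % d = a →
        c * (Nat.totient d : ℝ) * FF (Real.log d) < p := by
  classical
  have h := record_progression_of Pool.Agent.H256R2.SC.covering A hA
  convert h

end Pool.Agent.H378R2.RM
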